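import Pool.Agent.N121.OH.Scale

/-!
# Relations given by arrays of integers, at the scaled points
-/

set_option autoImplicit false
set_option linter.unusedSectionVars false

open Complex Set Filter Topology NumberField

namespace Pool.Agent.N121.OH

open Pool.Agent.Y118.HP (qm bm)
open Pool.Agent.Y890.MV
open Pool.Agent.Y890.SM

variable {ι : Type} {n : ι → ℕ}

/-- the torsor of the curves `y² = G i (x)` -/
def TorC (n : ι → ℕ) (G : ι → Polynomial ℂ) : Set ((∀ i, Matrix (Fin (n i)) (Fin (n i)) ℂ) × ℂ) :=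
  {p | p.2 ≠ 0 ∧ ∀ i, p.1 i * qm (n i) (G i) * (p.1 i).transpose = p.2 • (bm ℚ (n i)).map (algebraMap ℚ ℂ)}

/-- the matrices of the periods -/
noncomputable def PM (n : ι → ℕ) (e : ∀ i, Fin (n i + 1) → ℂ) (i : ι) : Matrix (Fin (n i)) (Fin (n i)) ℂ :=
  Matrix.of fun l j => perF (e i) l j

/-- rescaling of the columns -/
noncomputable def rs (n : ι → ℕ) (s : ℝ) (Y : ∀ i, Matrix (Fin (n i)) (Fin (n i)) ℂ) (i : ι) :
    Matrix (Fin (n i)) (Fin (n i)) ℂ :=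
  Matrix.of fun l j => (s : ℂ) ^ (2 * (j : ℤ) + 1 - (n i)) * Y i l j

theorem rs_tor {s : ℝ} (hs : 0 < s) {x : (Σ i, Fin (n i + 1)) → ℂ} (hx : x ∈ USig (fun i => Un (1 + I) (n i)))
    {Y : ∀ i, Matrix (Fin (n i)) (Fin (n i)) ℂ} {μ : ℂ} :
    ((rs n s Y, μ) ∈ TorC n (fun i => rp (eI n s x i)) ↔ (Y, μ) ∈ TorC n (fun i => cp (pj x i))) := by
  unfold TorC
  simp only [Set.mem_ofPred_eq]
  refine and_congr_right fun _ => forall_congr' fun i => ?_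
  have h1 : rs n s Y i * qm (n i) (rp (eI n s x i)) * (rs n s Y i).transpose =
      Y i * qm (n i) (cp (pj x i)) * (Y i).transpose := by
    ext r t
    simp only [Matrix.mul_apply, Matrix.transpose_apply, Finset.sum_mul]
    refine Finset.sum_congr rfl fun a _ => Finset.sum_congr rfl fun b _ => ?_
    rw [← qm_eI hs (hx i)]
    unfold rs
    rw [Matrix.of_apply, Matrix.of_apply]
    ring
  rw [h1]

theorem rs_PM {s : ℝ} (hs : 0 < s) {x : (Σ i, Fin (n i + 1)) → ℂ} (hx : x ∈ USig (fun i => Un (1 + I) (n i))) :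
    PM n (eI n s x) = rs n s fun i => PE w0 (rt (1 + I) (pj x i)) := by
  funext i
  ext l j
  unfold PM rs
  rw [Matrix.of_apply, Matrix.of_apply, perF_eI hs (hx i)]

/-- inverse of the rescaling -/
theorem rs_inv {s : ℝ} (hs : 0 < s) (Y : ∀ i, Matrix (Fin (n i)) (Fin (n i)) ℂ) :
    rs n s (fun i => Matrix.of fun l j => (s : ℂ) ^ (-(2 * (j : ℤ) + 1 - (n i))) * Y i l j) = Y := by
  have hs0 : (s : ℂ) ≠ 0 := by exact_mod_cast hs.ne'
  funext i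
  ext l j
  show (s : ℂ) ^ (2 * (j : ℤ) + 1 - (n i)) * ((s : ℂ) ^ (-(2 * (j : ℤ) + 1 - (n i))) * Y i l j) = Y i l j
  rw [← mul_assoc, ← zpow_add₀ hs0, add_neg_cancel, zpow_zero, one_mul]

variable [Fintype ι] [DecidableEq ι]

/-- the value of an array -/
noncomputable def arv {k : ℕ} {h : Type} [Fintype h] (c : (Ix n → Fin (k + 1)) → h → ℂ) (v : h → ℂ)
    (Y : ∀ i, Matrix (Fin (n i)) (Fin (n i)) ℂ) : ℂ :=
  ∑ l : Ix n → Fin (k + 1), (∑ a, v a * c l a) * ∏ y : Ix n, (Y y.1 y.2.1 y.2.2) ^ (l y : ℕ)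

/-- the exponents of the side -/
def exq {k : ℕ} (n : ι → ℕ) (l : Ix n → Fin (k + 1)) : ℕ :=
  ∑ y : Ix n, (n y.1 * (k - (l y : ℕ)) + (2 * (y.2.2 : ℕ) + 1) * (l y : ℕ))

/-- the total exponent -/
def exL (n : ι → ℕ) (k : ℕ) : ℕ := ∑ y : Ix n, n y.1 * k

theorem exq_le {k : ℕ} (l : Ix n → Fin (k + 1)) : exq n l ≤ 2 * exL n k := by
  unfold exq exL
  rw [Finset.mul_sum]
  refine Finset.sum_le_sum fun y _ => ?_
  have h1 : (l y : ℕ) ≤ k := Nat.lt_succ_iff.1 (l y).2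
  have h2 : (y.2.2 : ℕ) < n y.1 := y.2.2.2
  have h3 : (2 * (y.2.2 : ℕ) + 1) * (l y : ℕ) ≤ (2 * n y.1) * (l y : ℕ) := Nat.mul_le_mul_right _ (by omega)
  have h4 : n y.1 * (k - (l y : ℕ)) + n y.1 * (l y : ℕ) = n y.1 * k := by
    rw [← Nat.mul_add, Nat.sub_add_cancel h1]
  nlinarith [Nat.zero_le (n y.1 * (k - (l y : ℕ)))]

theorem exq_eq {k : ℕ} {s : ℝ} (hs : 0 < s) (Y : ∀ i, Matrix (Fin (n i)) (Fin (n i)) ℂ) (l : Ix n → Fin (k + 1)) :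
    (s : ℂ) ^ exL n k * ∏ y : Ix n, (rs n s Y y.1 y.2.1 y.2.2) ^ (l y : ℕ) =
      (s : ℂ) ^ exq n l * ∏ y : Ix n, (Y y.1 y.2.1 y.2.2) ^ (l y : ℕ) := by
  have hs0 : (s : ℂ) ≠ 0 := by exact_mod_cast hs.ne'
  unfold exL exq
  rw [← Finset.prod_pow_eq_pow_sum, ← Finset.prod_pow_eq_pow_sum, ← Finset.prod_mul_distrib,
    ← Finset.prod_mul_distrib]
  refine Finset.prod_congr rfl fun y _ => ?_
  unfold rs
  rw [Matrix.of_apply, mul_pow, ← mul_assoc]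
  congr 1
  have h1 : (l y : ℕ) ≤ k := Nat.lt_succ_iff.1 (l y).2
  obtain ⟨d, hd⟩ := Nat.exists_eq_add_of_le h1
  have h2 : k - (l y : ℕ) = d := by omega
  have hd' : (k : ℤ) = (l y : ℕ) + d := by exact_mod_cast hd
  rw [h2, ← zpow_natCast, ← zpow_natCast, ← zpow_natCast, ← zpow_mul, ← zpow_add₀ hs0]
  congr 1
  push_cast
  linear_combination (n y.1 : ℤ) * hd'

/-- scaled arrays -/
theorem arv_scale {k : ℕ} {h : Type} [Fintype h] {s : ℝ} (hs : 0 < s) (c : (Ix n → Fin (k + 1)) → h → ℂ) (v : h → ℂ)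
    (Y : ∀ i, Matrix (Fin (n i)) (Fin (n i)) ℂ) :
    (s : ℂ) ^ exL n k * arv c v (rs n s Y) = arv (fun l a => (s : ℂ) ^ exq n l * c l a) v Y := by
  unfold arv
  rw [Finset.mul_sum]
  refine Finset.sum_congr rfl fun l _ => ?_
  have h1 := exq_eq hs Y l
  have h2 : (∑ a, v a * ((s : ℂ) ^ exq n l * c l a)) = (s : ℂ) ^ exq n l * ∑ a, v a * c l a := by
    rw [Finset.mul_sum]
    refine Finset.sum_congr rfl fun a _ => ?_
    ring
  rw [h2]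
  linear_combination (∑ a, v a * c l a) * h1

/-- the family -/
noncomputable def F0 (n : ι → ℕ) (hn : ∀ i, Even (n i)) : SympFam (Σ i, Fin (n i + 1)) n := ohF n hn w0_sq w0_ne

theorem F0_tor (hn : ∀ i, Even (n i)) {x : (Σ i, Fin (n i + 1)) → ℂ} {Y : Ix n → ℂ} :
    Y ∈ (F0 n hn).Tor x ↔ ((fun i => bl Y i), tpi) ∈ TorC n (fun i => cp (pj x i)) := by
  unfold TorC SympFam.Tor
  simp only [Set.mem_ofPred_eq]
  constructor
  · intro h
    refine ⟨tpi_ne, fun i => ?_⟩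
    have h1 : bl Y i * (QC n i).map (MvPolynomial.aeval x) * (bl Y i).transpose =
      tpi ^ 1 • (bm ℚ (n i)).map (algebraMap ℚ ℂ) := h i
    rw [QC_eval, pow_one] at h1
    exact h1
  · rintro ⟨_, h⟩ i
    show bl Y i * (QC n i).map (MvPolynomial.aeval x) * (bl Y i).transpose =
      tpi ^ 1 • (bm ℚ (n i)).map (algebraMap ℚ ℂ)
    rw [QC_eval, pow_one]
    exact h i

/-- the integral array with values in the ring of integers of `ℚ` -/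
def zc {k : ℕ} {h : Type} (S : ℕ) (c : (Ix n → Fin (k + 1)) → h → ℤ) (l : Ix n → Fin (k + 1)) (a : h) : 𝓞 ℚ :=
  ((S : ℤ) ^ exq n l * c l a : ℤ)

theorem zc_map {k : ℕ} {h : Type} (S : ℕ) (c : (Ix n → Fin (k + 1)) → h → ℤ) (l : Ix n → Fin (k + 1)) (a : h)
    (φ : ℚ →+* ℂ) : φ (zc S c l a : ℚ) = (S : ℂ) ^ exq n l * (c l a : ℂ) := by
  unfold zc
  simp

/-- **Relations given by arrays**: outside the exceptional sets of the family, at the scaled point -/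
theorem good_arr (hn : ∀ i, Even (n i)) {k : ℕ} {h : Type} [Fintype h] {v : h → ℂ} {S : ℕ} (hS : 0 < S)
    {xq : (Σ i, Fin (n i + 1)) → ℚ} {Lc : Set ((Σ i, Fin (n i + 1)) → ℂ)} {A T : ℝ}
    (h1 : ∀ j, Y120.HtLe ℚ T (xq j)) (h2 : (fun j => (algebraMap ℚ ℂ) (xq j)) ∈ Lc) (hL : Lc ⊆ (F0 n hn).U)
    (h3 : xq ∉ ExcT k (F0 n hn).f (F0 n hn).Tor Lc ℚ (algebraMap ℚ ℂ) v A T)
    (c : (Ix n → Fin (k + 1)) → h → ℤ) (hc : ∀ l a, (S : ℝ) ^ (2 * exL n k) * |(c l a : ℝ)| ≤ T ^ A)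
    (h4 : arv (fun l a => (c l a : ℂ)) v (PM n (eI n S fun j => (algebraMap ℚ ℂ) (xq j))) = 0) :
    (∀ Y, (Y, tpi) ∈ TorC n (fun i => rp (eI n S (fun j => (algebraMap ℚ ℂ) (xq j)) i)) →
      arv (fun l a => (c l a : ℂ)) v Y = 0) ∧
    ∀ Y ∈ (F0 n hn).Tor (fun j => (algebraMap ℚ ℂ) (xq j)),
      ∑ l, (∑ a, v a * (algebraMap ℚ ℂ) (zc S c l a : ℚ)) * ∏ y, Y y ^ (l y : ℕ) = 0 := by
  classical
  set x : (Σ i, Fin (n i + 1)) → ℂ := fun j => (algebraMap ℚ ℂ) (xq j) with hx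
  have hS0 : (0 : ℝ) < (S : ℝ) := by exact_mod_cast hS
  have hSC : ((S : ℝ) : ℂ) ≠ 0 := by exact_mod_cast hS0.ne'
  have hxU : x ∈ USig (fun i => Un (1 + I) (n i)) := hL h2
  have hS1 : (1 : ℝ) ≤ S := by exact_mod_cast hS
  have hcast : (fun (l : Ix n → Fin (k + 1)) (a : h) => ((S : ℝ) : ℂ) ^ exq n l * (c l a : ℂ)) =
      fun l a => (algebraMap ℚ ℂ) (zc S c l a : ℚ) := by
    funext l a
    rw [zc_map]
    push_cast
    rfl
  have key : ∀ Y ∈ (F0 n hn).Tor x,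
      ∑ l, (∑ a, v a * (algebraMap ℚ ℂ) (zc S c l a : ℚ)) * ∏ y, Y y ^ (l y : ℕ) = 0 := by
    by_contra hne
    apply h3
    refine ⟨h1, h2, zc S c, ?_, ?_, hne⟩
    · intro l a φ
      rw [zc_map, norm_mul, norm_pow]
      have e1 : ‖(S : ℂ)‖ = (S : ℝ) := by simp
      have e2 : ‖(c l a : ℂ)‖ = |(c l a : ℝ)| := by
        rw [← Complex.ofReal_intCast, Complex.norm_real, Real.norm_eq_abs]
      rw [e1, e2]
      refine le_trans ?_ (hc l a)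
      exact mul_le_mul_of_nonneg_right (pow_le_pow_right₀ hS1 (exq_le l)) (abs_nonneg _)
    · have e1 := arv_scale hS0 (fun l a => (c l a : ℂ)) v (fun i => PE w0 (rt (1 + I) (pj x i)))
      rw [← rs_PM hS0 hxU, h4, mul_zero, hcast] at e1
      exact e1.symm
  refine ⟨fun Y hY => ?_, key⟩
  set Z : ∀ i, Matrix (Fin (n i)) (Fin (n i)) ℂ := fun i =>
    Matrix.of fun l j => ((S : ℝ) : ℂ) ^ (-(2 * (j : ℤ) + 1 - (n i))) * Y i l j with hZ
  have hZY : rs n S Z = Y := rs_inv hS0 Y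
  rw [← hZY, rs_tor hS0 hxU] at hY
  have h5 : (fun q : Ix n => Z q.1 q.2.1 q.2.2) ∈ (F0 n hn).Tor x := by
    rw [F0_tor]
    exact hY
  have h6 := key _ h5
  have e1 := arv_scale hS0 (fun l a => (c l a : ℂ)) v Z
  rw [hcast] at e1
  have e2 : arv (fun l a => (algebraMap ℚ ℂ) (zc S c l a : ℚ)) v Z = 0 := h6
  rw [e2, hZY] at e1
  exact (mul_eq_zero.1 e1).resolve_left (pow_ne_zero _ hSC)

/-- relations with powers of `2 π i` as coefficients: all multipliers -/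
theorem good_full (hn : ∀ i, Even (n i)) {k h : ℕ} {S : ℕ} (hS : 0 < S)
    {xq : (Σ i, Fin (n i + 1)) → ℚ} {Lc : Set ((Σ i, Fin (n i + 1)) → ℂ)} {A T : ℝ}
    (h1 : ∀ j, Y120.HtLe ℚ T (xq j)) (h2 : (fun j => (algebraMap ℚ ℂ) (xq j)) ∈ Lc) (hL : Lc ⊆ (F0 n hn).U)
    (h3 : xq ∉ ExcT k (F0 n hn).f (F0 n hn).Tor Lc ℚ (algebraMap ℚ ℂ) (fun a : Fin h => tpi ^ (a : ℕ)) A T)
    (c : (Ix n → Fin (k + 1)) → Fin h → ℤ) (hc : ∀ l a, (S : ℝ) ^ (2 * exL n k) * |(c l a : ℝ)| ≤ T ^ A)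
    (h4 : arv (fun l a => (c l a : ℂ)) (fun a : Fin h => tpi ^ (a : ℕ))
      (PM n (eI n S fun j => (algebraMap ℚ ℂ) (xq j))) = 0) :
    ∀ p ∈ TorC n (fun i => rp (eI n S (fun j => (algebraMap ℚ ℂ) (xq j)) i)),
      arv (fun l a => (c l a : ℂ)) (fun a : Fin h => p.2 ^ (a : ℕ)) p.1 = 0 := by
  classical
  obtain ⟨-, h5⟩ := good_arr hn hS h1 h2 hL h3 c hc h4
  set x : (Σ i, Fin (n i + 1)) → ℂ := fun j => (algebraMap ℚ ℂ) (xq j) with hx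
  have hS0 : (0 : ℝ) < (S : ℝ) := by exact_mod_cast hS
  have hSC : ((S : ℝ) : ℂ) ≠ 0 := by exact_mod_cast hS0.ne'
  have hxU : x ∈ USig (fun i => Un (1 + I) (n i)) := hL h2
  have hcast : (fun (l : Ix n → Fin (k + 1)) (a : Fin h) => ((S : ℝ) : ℂ) ^ exq n l * (c l a : ℂ)) =
      fun l a => (algebraMap ℚ ℂ) (zc S c l a : ℚ) := by
    funext l a
    rw [zc_map]
    push_cast
    rfl
  rintro ⟨Y, μ⟩ hY
  set Z : ∀ i, Matrix (Fin (n i)) (Fin (n i)) ℂ := fun i =>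
    Matrix.of fun l j => ((S : ℝ) : ℂ) ^ (-(2 * (j : ℤ) + 1 - (n i))) * Y i l j with hZ
  have hZY : rs n S Z = Y := rs_inv hS0 Y
  rw [← hZY, rs_tor hS0 hxU] at hY
  have h6 := (F0 n hn).full (algebraMap ℚ ℂ) xq (hL h2) (fun l a => (zc S c l a : ℚ)) h5 hY.1
    (fun q : Ix n => Z q.1 q.2.1 q.2.2) (fun i => by
      have e1 := hY.2 i
      show bl (fun q : Ix n => Z q.1 q.2.1 q.2.2) i * (QC n i).map (MvPolynomial.aeval x) *
        (bl (fun q : Ix n => Z q.1 q.2.1 q.2.2) i).transpose = μ ^ 1 • (bm ℚ (n i)).map (algebraMap ℚ ℂ)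
      rw [QC_eval, pow_one]
      exact e1)
  have e1 := arv_scale hS0 (fun l a => (c l a : ℂ)) (fun a : Fin h => μ ^ (a : ℕ)) Z
  rw [hcast] at e1
  have e2 : arv (fun l a => (algebraMap ℚ ℂ) (zc S c l a : ℚ)) (fun a : Fin h => μ ^ (a : ℕ)) Z = 0 := h6
  rw [e2, hZY] at e1
  exact (mul_eq_zero.1 e1).resolve_left (pow_ne_zero _ hSC)

end Pool.Agent.N121.OH
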