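import Pool.Agent.N121.OH.Root
import Pool.Agent.Y890.SM.Inst
import Pool.Agent.Y118.HP.Fin

/-!
# The family of all hyperelliptic curves of odd degree, with the coefficients as coordinates
-/

set_option autoImplicit false
set_option linter.unusedSectionVars false

open Filter Matrix

namespace Pool.Agent.N121.OH

open Pool.Agent.Y118.HP (jm jm_apply SpS jm_det jm_transpose jm_map SpS_map qm dl dl_ne dl_mul bm bm_eq perC)
open Pool.Agent.Y890.MV
open Pool.Agent.Y890.HE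
open Pool.Agent.Y890.SM
open Pool.Agent.Y890.SP (Qbar)

variable {n : ℕ}

theorem ordR_eq (n : ℕ) : OrdR n = Ord n := rfl

/-- the period matrix of the curve with branch points `u * e`, `w ^ 2 = u` -/
noncomputable def PE (w : ℂ) (e : Fin (n + 1) → ℂ) : Matrix (Fin n) (Fin n) ℂ :=
  Matrix.of fun l j => dl l * (w ^ (2 * (j : ℤ) + 1 - n) * perC e l j)

theorem coeff_big {R : Type*} [CommRing R] [Nontrivial R] (e : Fin (n + 1) → R) {k : ℕ} (hk : n + 1 < k) :
    (rp e).coeff k = 0 := by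
  apply Polynomial.coeff_eq_zero_of_natDegree_lt
  rw [rp_natDegree]
  exact hk

theorem qm_scale {u w : ℂ} (hw : w ^ 2 = u) (hw0 : w ≠ 0) (e : Fin (n + 1) → ℂ) (i j : Fin n) :
    w ^ (2 * (i : ℤ) + 1 - n) * qm n (rp fun r => u * e r) i j * w ^ (2 * (j : ℤ) + 1 - n) = qm n (rp e) i j := by
  have hu : u ≠ 0 := by
    rw [← hw]
    exact pow_ne_zero _ hw0
  unfold qm
  rw [Matrix.of_apply, Matrix.of_apply]
  rcases le_or_gt ((i : ℕ) + (j : ℕ) + 2) (n + 1) with h | h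
  · rw [rp_scale_coeff hu e h]
    have h1 : w ^ (2 * (i : ℤ) + 1 - n) * u ^ (n + 1 - ((i : ℕ) + (j : ℕ) + 2)) * w ^ (2 * (j : ℤ) + 1 - n) = 1 := by
      obtain ⟨d, hd⟩ := Nat.exists_eq_add_of_le h
      have hd' : n + 1 - ((i : ℕ) + (j : ℕ) + 2) = d := by omega
      have h2 : u ^ d = w ^ ((2 * d : ℕ) : ℤ) := by
        rw [← hw, ← pow_mul, zpow_natCast]
      rw [hd', h2, ← zpow_add₀ hw0, ← zpow_add₀ hw0]
      have h3 : 2 * ((i : ℕ) : ℤ) + 1 - n + ((2 * d : ℕ) : ℤ) + (2 * ((j : ℕ) : ℤ) + 1 - n) = 0 := by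
        have h4 : ((n : ℤ) + 1) = (i : ℕ) + (j : ℕ) + 2 + d := by exact_mod_cast hd
        push_cast
        linarith
      rw [h3, zpow_zero]
    calc _ = (w ^ (2 * (i : ℤ) + 1 - n) * u ^ (n + 1 - ((i : ℕ) + (j : ℕ) + 2)) * w ^ (2 * (j : ℤ) + 1 - n)) *
          ((((i : ℕ) : ℂ) - ((j : ℕ) : ℂ)) / 2 * (rp e).coeff ((i : ℕ) + (j : ℕ) + 2)) := by ring
      _ = _ := by rw [h1, one_mul]
  · rw [coeff_big _ h, coeff_big _ h]
    ring

theorem PE_riemann (hn : Even n) {u w : ℂ} (hw : w ^ 2 = u) (hw0 : w ≠ 0) {e : Fin (n + 1) → ℂ} (he : e ∈ Ord n) :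
    PE w e * qm n (rp fun r => u * e r) * (PE w e).transpose = tpi • (bm ℚ n).map (algebraMap ℚ ℂ) := by
  have h1 := legendreC hn he
  rw [Qg_eval] at h1
  have h2 : ∀ r s, (PE w e * qm n (rp fun r => u * e r) * (PE w e).transpose) r s =
      dl r * dl s * (FM e * qm n (rp e) * (FM e).transpose) r s := by
    intro r s
    simp only [Matrix.mul_apply, Matrix.transpose_apply, Finset.mul_sum, Finset.sum_mul, PE, Matrix.of_apply]
    refine Finset.sum_congr rfl fun i _ => Finset.sum_congr rfl fun j _ => ?_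
    rw [← qm_scale hw hw0 e j i]
    show dl r * (w ^ (2 * (j : ℤ) + 1 - n) * perC e r j) * qm n (rp fun r => u * e r) j i *
      (dl s * (w ^ (2 * (i : ℤ) + 1 - n) * perC e s i)) = dl r * dl s * (perC e r j *
        (w ^ (2 * (j : ℤ) + 1 - n) * qm n (rp fun r => u * e r) j i * w ^ (2 * (i : ℤ) + 1 - n)) * perC e s i)
    ring
  ext r s
  have h3 : (FM e * qm n (rp e) * (FM e).transpose) r s = ((Real.pi : ℂ) • jm ℂ n) r s := congrFun (congrFun h1 r) s
  rw [h2, h3, bm_eq, Matrix.smul_apply, Matrix.smul_apply, Matrix.smul_apply, jm_apply, smul_eq_mul, smul_eq_mul,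
    smul_eq_mul]
  by_cases h : (r : ℕ) = s + 1 ∨ (s : ℕ) = r + 1
  · rw [if_pos h, dl_mul h]
    unfold tpi
    ring
  · rw [if_neg h, mul_zero, mul_zero, mul_zero, mul_zero]

/-- conjugation by the diagonal matrix of the factors preserves the symplectic group -/
theorem conj_dl {γ : Matrix (Fin n) (Fin n) ℂ} (hγ : γ ∈ SpS ℂ n) :
    (Matrix.of fun l k => (dl l)⁻¹ * γ l k * dl k) ∈ SpS ℂ n := by
  show (Matrix.of fun l k => (dl l)⁻¹ * γ l k * dl k) * jm ℂ n *
    (Matrix.of fun l k => (dl l)⁻¹ * γ l k * dl k).transpose = jm ℂ n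
  have hγ' : γ * jm ℂ n * γ.transpose = jm ℂ n := hγ
  have hdj : ∀ r s : Fin n, dl r * jm ℂ n r s * dl s = -4 * Complex.I * jm ℂ n r s := by
    intro r s
    rw [jm_apply]
    by_cases h : (r : ℕ) = s + 1 ∨ (s : ℕ) = r + 1
    · rw [if_pos h]
      have h1 := dl_mul h
      linear_combination (-(-1 : ℂ) ^ (r : ℕ)) * h1
    · rw [if_neg h, mul_zero, zero_mul, mul_zero]
  ext r s
  have h1 : ((Matrix.of fun l k => (dl l)⁻¹ * γ l k * dl k) * jm ℂ n *
      (Matrix.of fun l k => (dl l)⁻¹ * γ l k * dl k).transpose) r s =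
      (dl r)⁻¹ * (dl s)⁻¹ * (-4 * Complex.I) * (γ * jm ℂ n * γ.transpose) r s := by
    simp only [Matrix.mul_apply, Matrix.transpose_apply, Finset.mul_sum, Finset.sum_mul, Matrix.of_apply]
    refine Finset.sum_congr rfl fun i _ => Finset.sum_congr rfl fun j _ => ?_
    have h2 := hdj j i
    linear_combination ((dl r)⁻¹ * γ r j * (dl s)⁻¹ * γ s i) * h2
  rw [h1, hγ', jm_apply]
  by_cases h : (r : ℕ) = s + 1 ∨ (s : ℕ) = r + 1
  · rw [if_pos h, ← mul_inv, dl_mul h]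
    have h3 : (-4 * Complex.I) ≠ 0 := mul_ne_zero (by norm_num) Complex.I_ne_zero
    rw [inv_mul_cancel₀ h3, one_mul]
  · rw [if_neg h, mul_zero]

theorem bm_pres {γ : Matrix (Fin n) (Fin n) ℚ} (hγ : γ ∈ SpS ℚ n) : γ * bm ℚ n * γ.transpose = bm ℚ n := by
  have h1 : bm ℚ n = (-2 : ℚ) • jm ℚ n := by
    ext r s
    rw [Matrix.smul_apply, jm_apply]
    unfold bm
    rw [Matrix.of_apply]
    split_ifs <;> simp
  have hγ' : γ * jm ℚ n * γ.transpose = jm ℚ n := hγ
  rw [h1, Matrix.mul_smul, Matrix.smul_mul, hγ']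

theorem bm_eqQ : bm ℚ n = (-2 : ℚ) • jm ℚ n := by
  ext r s
  rw [Matrix.smul_apply, jm_apply]
  unfold bm
  rw [Matrix.of_apply]
  split_ifs <;> simp

theorem PE_an {u w : ℂ} (hu : u ≠ 0) (l j : Fin n) : AnalyticOnNhd ℂ (fun a => PE w (rt u a) l j) (Un u n) := by
  have h1 : DifferentiableOn ℂ (fun a => perC (rt u a) l j) (Un u n) :=
    (differentiableOn_perC l j).comp (rt_diff hu n) fun a ha => rt_mem ha
  have h2 := Pool.Agent.Y785.MV.Osg.t _ _ (Un_open hu n) _ h1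
  intro a ha
  exact analyticAt_const.mul (analyticAt_const.mul (h2 a ha))

section sig

variable {ι : Type}

/-- the coefficients -/
noncomputable def cfC (n : ι → ℕ) (i : ι) (m : ℕ) : MvPolynomial (Σ i, Fin (n i + 1)) Qbar :=
  if h : m < n i + 1 then MvPolynomial.X ⟨i, ⟨m, h⟩⟩ else if m = n i + 1 then 1 else 0

theorem cfC_eval (n : ι → ℕ) (i : ι) (m : ℕ) (a : (Σ i, Fin (n i + 1)) → ℂ) :
    MvPolynomial.aeval a (cfC n i m) = (cp (pj a i)).coeff m := by
  rw [cp_coeff']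
  unfold cfC
  split_ifs with h1 h2
  · rw [MvPolynomial.aeval_X]
    rfl
  · rw [map_one]
  · rw [map_zero]

/-- the polarization -/
noncomputable def QC (n : ι → ℕ) (i : ι) : Matrix (Fin (n i)) (Fin (n i)) (MvPolynomial (Σ i, Fin (n i + 1)) Qbar) :=
  Matrix.of fun a b => MvPolynomial.C ((((a : ℕ) : Qbar) - ((b : ℕ) : Qbar)) / 2) * cfC n i ((a : ℕ) + (b : ℕ) + 2)

theorem QC_eval (n : ι → ℕ) (i : ι) (a : (Σ i, Fin (n i + 1)) → ℂ) :
    (QC n i).map (MvPolynomial.aeval a) = qm (n i) (cp (pj a i)) := by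
  refine Matrix.ext fun r s => ?_
  rw [Matrix.map_apply, QC, Matrix.of_apply, map_mul, cfC_eval, MvPolynomial.aeval_C, qm,
    Matrix.of_apply, map_div₀, map_sub, map_natCast, map_natCast, map_ofNat]

theorem QC_alt (n : ι → ℕ) (i : ι) : (QC n i).transpose = -QC n i := by
  refine Matrix.ext fun a b => ?_
  have h1 : (MvPolynomial.C ((((b : ℕ) : Qbar) - ((a : ℕ) : Qbar)) / 2) :
      MvPolynomial (Σ i, Fin (n i + 1)) Qbar) =
      -MvPolynomial.C ((((a : ℕ) : Qbar) - ((b : ℕ) : Qbar)) / 2) := by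
    rw [← map_neg]
    congr 1
    ring
  rw [Matrix.transpose_apply, Matrix.neg_apply, QC, Matrix.of_apply, Matrix.of_apply,
    show (b : ℕ) + (a : ℕ) + 2 = (a : ℕ) + (b : ℕ) + 2 by omega, h1]
  generalize (MvPolynomial.C ((((a : ℕ) : Qbar) - ((b : ℕ) : Qbar)) / 2) :
      MvPolynomial (Σ i, Fin (n i + 1)) Qbar) = A
  generalize cfC n i ((a : ℕ) + (b : ℕ) + 2) = B
  ring

/-- the coefficients as polynomials in the roots divided by `u` -/
noncomputable def vP (n : ι → ℕ) (u : ℂ) (q : Σ i, Fin (n i + 1)) : MvPolynomial (Σ i, Fin (n i + 1)) ℂ :=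
  (rp fun r : Fin (n q.1 + 1) => MvPolynomial.C u * MvPolynomial.X (R := ℂ) (⟨q.1, r⟩ : Σ i, Fin (n i + 1))).coeff
    (q.2 : ℕ)

/-- the coefficients of the polynomials with given roots -/
noncomputable def vS (n : ι → ℕ) (u : ℂ) (e : (Σ i, Fin (n i + 1)) → ℂ) (q : Σ i, Fin (n i + 1)) : ℂ :=
  vc (fun r => u * pj e q.1 r) q.2

theorem vP_eval (n : ι → ℕ) (u : ℂ) (e : (Σ i, Fin (n i + 1)) → ℂ) (q : Σ i, Fin (n i + 1)) :
    MvPolynomial.eval e (vP n u q) = vS n u e q := by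
  unfold vP vS vc
  rw [← Polynomial.coeff_map, map_rp]
  simp [pj]

theorem pj_vS (n : ι → ℕ) (u : ℂ) (e : (Σ i, Fin (n i + 1)) → ℂ) (i : ι) :
    pj (vS n u e) i = vc (fun r => u * pj e i r) := rfl

/-- the transfer of relations to the roots -/
noncomputable def trf (n : ι → ℕ) (u : ℂ) (c : Ix n → ℂ) : MvPolynomial (Ix n) (MvPolynomial (Σ i, Fin (n i + 1)) ℂ) →+*
    MvPolynomial (Ix n) (MvPolynomial (Σ i, Fin (n i + 1)) ℂ) :=
  MvPolynomial.eval₂Hom (MvPolynomial.C.comp (MvPolynomial.eval₂Hom MvPolynomial.C (vP n u)))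
    (fun q => MvPolynomial.C (MvPolynomial.C (c q)) * MvPolynomial.X q)

theorem trf_ev (n : ι → ℕ) (u : ℂ) (c : Ix n → ℂ) (e : (Σ i, Fin (n i + 1)) → ℂ) (Y : Ix n → ℂ)
    (p : MvPolynomial (Ix n) (MvPolynomial (Σ i, Fin (n i + 1)) ℂ)) :
    evX e Y (trf n u c p) = evX (vS n u e) (fun q => c q * Y q) p := by
  have h1 : (MvPolynomial.eval₂Hom (MvPolynomial.eval e) Y).comp (trf n u c) =
      MvPolynomial.eval₂Hom (MvPolynomial.eval (vS n u e)) (fun q => c q * Y q) := by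
    refine MvPolynomial.ringHom_ext (fun b => ?_) (fun q => ?_)
    · have h2 : ((MvPolynomial.eval₂Hom (MvPolynomial.eval e) Y).comp (trf n u c)).comp MvPolynomial.C =
          MvPolynomial.eval (vS n u e) := by
        refine MvPolynomial.ringHom_ext (fun d => ?_) (fun q => ?_)
        · simp [trf]
        · simp [trf, vP_eval]
      have h3 := congrArg (fun g => g b) h2
      simp only [RingHom.comp_apply] at h3
      rw [RingHom.comp_apply, h3]
      exact (MvPolynomial.eval₂Hom_C _ _ _).symm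
    · simp [trf]
  exact congrArg (fun g => g p) h1

variable [Fintype ι] [DecidableEq ι]

/-- the factors -/
noncomputable def cs (n : ι → ℕ) (w : ℂ) (q : Ix n) : ℂ := dl q.2.1 * w ^ (2 * (q.2.2 : ℤ) + 1 - (n q.1))

theorem cs_ne (n : ι → ℕ) {w : ℂ} (hw0 : w ≠ 0) (q : Ix n) : cs n w q ≠ 0 :=
  mul_ne_zero (dl_ne _) (zpow_ne_zero _ hw0)

theorem oh_mon (n : ι → ℕ) (hn : ∀ i, Even (n i)) {u w : ℂ} (hu : u ≠ 0) (hw0 : w ≠ 0)
    (γ : ∀ i, Matrix (Fin (n i)) (Fin (n i)) ℚ) (hγ : ∀ i, γ i ∈ SpS ℚ (n i))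
    (p : MvPolynomial (Ix n) (MvPolynomial (Σ i, Fin (n i + 1)) ℂ))
    (hp : ∀ a ∈ USig (fun i => Un u (n i)), evX a (fun q => PE w (rt u (pj a q.1)) q.2.1 q.2.2) p = 0) :
    ∀ a ∈ USig (fun i => Un u (n i)),
      evX a (fun q => ((γ q.1).map (algebraMap ℚ ℂ) * PE w (rt u (pj a q.1))) q.2.1 q.2.2) p = 0 := by
  classical
  intro a ha
  set e : (Σ i, Fin (n i + 1)) → ℂ := fun q => rt u (pj a q.1) q.2 with he
  have hpe : ∀ i, pj e i = rt u (pj a i) := fun i => rfl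
  have heU : e ∈ USig (fun i => Ord (n i)) := fun i => by
    rw [hpe]
    exact rt_mem (ha i)
  have hva : vS n u e = a := by
    funext ⟨i, m⟩
    have h1 := congrFun (vc_rt (ha i)) m
    exact h1
  have hT : TorM (USig (fun i => Ord (n i))) (fSig (fun i => fH (n i))) (TSig (fun i => TorH (n i))) :=
    TorM.sig fun i => torH (hn i)
  have hvU : ∀ e ∈ USig (fun i => Ord (n i)), vS n u e ∈ USig (fun i => Un u (n i)) := fun e he i => by
    rw [pj_vS]
    exact vc_mem (he i)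
  have hrt : ∀ e ∈ USig (fun i => Ord (n i)), ∀ i, rt u (pj (vS n u e) i) = pj e i := fun e he i => by
    rw [pj_vS]
    exact rt_unique hu (he i) (cp_vc _)
  have h1 : ∀ e ∈ USig (fun i => Ord (n i)), Y890.MV.evM (fSig (fun i => fH (n i))) e (trf n u (cs n w) p) = 0 := by
    intro e he
    rw [evM_eq, trf_ev]
    refine Eq.trans ?_ (hp _ (hvU e he))
    congr 1
    funext q
    rw [hrt e he]
    unfold PE cs fSig fH
    rw [Matrix.of_apply]
    ring
  set Y : Ix n → ℂ := fun q => (cs n w q)⁻¹ * (((γ q.1).map (algebraMap ℚ ℂ) * PE w (rt u (pj a q.1))) q.2.1 q.2.2)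
    with hY
  have h2 : Y ∈ TSig (fun i => TorH (n i)) e := by
    intro i
    show mt (pj Y i) * _ * (mt (pj Y i)).transpose = _
    have h3 : mt (pj Y i) = (Matrix.of fun l k => (dl l)⁻¹ * ((γ i).map (algebraMap ℚ ℂ)) l k * dl k) *
        FM (pj e i) := by
      ext l j
      show (cs n w ⟨i, (l, j)⟩)⁻¹ * (((γ i).map (algebraMap ℚ ℂ) * PE w (rt u (pj a i))) l j) = _
      rw [Matrix.mul_apply, Matrix.mul_apply, Finset.mul_sum]
      refine Finset.sum_congr rfl fun k _ => ?_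
      show (dl l * w ^ (2 * (j : ℤ) + 1 - (n i)))⁻¹ * (((γ i).map (algebraMap ℚ ℂ)) l k *
        (dl k * (w ^ (2 * (j : ℤ) + 1 - (n i)) * perC (rt u (pj a i)) k j))) =
        (dl l)⁻¹ * ((γ i).map (algebraMap ℚ ℂ)) l k * dl k * perC (rt u (pj a i)) k j
      have h4 : w ^ (2 * (j : ℤ) + 1 - (n i)) ≠ 0 := zpow_ne_zero _ hw0
      have h5 := dl_ne l
      field_simp
    rw [h3]
    exact sp_tor (conj_dl (SpS_map (algebraMap ℚ ℂ) (hγ i))) (legendreC (hn i) (heU i))
  have h3 := hT.inv _ h1 e heU Y h2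
  rw [trf_ev, hva] at h3
  refine Eq.trans ?_ h3
  congr 1
  funext q
  rw [hY]
  simp only
  rw [mul_inv_cancel_left₀ (cs_ne n hw0 q)]

theorem USigUn_nonempty (n : ι → ℕ) (u : ℂ) : (USig (fun i => Un u (n i))).Nonempty :=
  USig_nonempty fun i => ⟨_, vc_mem (Ord_nonempty (n i)).choose_spec⟩

theorem USigUn_conn (n : ι → ℕ) (u : ℂ) : IsPreconnected (USig (fun i => Un u (n i))) := by
  have h1 : USig (fun i => Un u (n i)) = vS n u '' (USig (fun i => Ord (n i))) := by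
    ext a
    constructor
    · intro ha
      set e : (Σ i, Fin (n i + 1)) → ℂ := fun q => rt u (pj a q.1) q.2 with he
      have hpe : ∀ i, pj e i = rt u (pj a i) := fun i => rfl
      have heU : e ∈ USig (fun i => Ord (n i)) := fun i => by
        rw [hpe]
        exact rt_mem (ha i)
      refine ⟨e, heU, ?_⟩
      funext ⟨i, m⟩
      have h1 := congrFun (vc_rt (ha i)) m
      exact h1
    · rintro ⟨e, he, rfl⟩ i
      rw [pj_vS]
      exact vc_mem (he i)
  rw [h1]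
  refine IsPreconnected.image (USig_convex fun i => Ord_convex (n i)).isPreconnected _ ?_
  refine Continuous.continuousOn ?_
  refine continuous_pi fun q => ?_
  have h2 : (fun e => vS n u e q) = fun e => MvPolynomial.eval e (vP n u q) := by
    funext e
    rw [vP_eval]
  rw [h2]
  exact MvPolynomial.continuous_eval _

theorem oh_riemann (n : ι → ℕ) (hn : ∀ i, Even (n i)) {u w : ℂ} (hw : w ^ 2 = u) (hw0 : w ≠ 0)
    (a : (Σ i, Fin (n i + 1)) → ℂ) (ha : a ∈ USig (fun i => Un u (n i))) (i : ι) :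
    PE w (rt u (pj a i)) * (QC n i).map (MvPolynomial.aeval a) * (PE w (rt u (pj a i))).transpose =
      tpi ^ 1 • (bm ℚ (n i)).map (algebraMap ℚ ℂ) := by
  have h1 : (QC n i).map (MvPolynomial.aeval a) = qm (n i) (rp fun r => u * rt u (pj a i) r) := by
    rw [QC_eval, ← rt_eq (ha i)]
  rw [h1, pow_one]
  exact PE_riemann (hn i) hw hw0 (rt_mem (ha i))

theorem sp_of_bm {M : Matrix (Fin n) (Fin n) ℂ}
    (h1 : M * (bm ℚ n).map (algebraMap ℚ ℂ) * M.transpose = (bm ℚ n).map (algebraMap ℚ ℂ)) : M ∈ SpS ℂ n := by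
  show M * jm ℂ n * M.transpose = jm ℂ n
  rw [bm_eq, Matrix.mul_smul, Matrix.smul_mul] at h1
  have h2 := congrArg (fun A => (-2 : ℂ)⁻¹ • A) h1
  simp only [smul_smul] at h2
  norm_num at h2
  exact h2

/-- all products of hyperelliptic curves of odd degree, in terms of the coefficients -/
noncomputable def ohF (n : ι → ℕ) (hn : ∀ i, Even (n i)) {u w : ℂ} (hw : w ^ 2 = u) (hw0 : w ≠ 0) :
    SympFam (Σ i, Fin (n i + 1)) n where
  U := USig (fun i => Un u (n i))
  isOpen := USig_open fun i => Un_open (by rw [← hw]; exact pow_ne_zero _ hw0) (n i)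
  conn := USigUn_conn n u
  nonempty := USigUn_nonempty n u
  P := fun i a => PE w (rt u (pj a i))
  an := fun i l j => by
    have hu : u ≠ 0 := by rw [← hw]; exact pow_ne_zero _ hw0
    exact fSig_an (f' := fun i (q : Fin (n i) × Fin (n i)) a => PE w (rt u a) q.1 q.2)
      (U' := fun i => Un u (n i)) (fun i s => PE_an hu s.1 s.2) ⟨i, (l, j)⟩
  w := fun _ => 1
  Q := QC n
  Q_alt := QC_alt n
  J := fun i => bm ℚ (n i)
  J_alt := fun i => by
    rw [bm_eqQ, Matrix.transpose_smul, jm_transpose, smul_neg]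
  J_det := fun i => by
    rw [bm_eqQ, Matrix.det_smul]
    exact mul_ne_zero (pow_ne_zero _ (by norm_num)) (jm_det (hn i))
  riemann := fun a ha i => oh_riemann n hn hw hw0 a ha i
  Γ := {γ | ∀ i, γ i ∈ SpS ℚ (n i)}
  pres := fun γ hγ i => bm_pres (hγ i)
  mon := fun γ hγ p hp => oh_mon n hn (by rw [← hw]; exact pow_ne_zero _ hw0) hw0 γ hγ p hp
  dense := fun R hR M hM => dense_prod hn R (fun g hg => hR g hg) M fun i => sp_of_bm (hM i)

end sig

end Pool.Agent.N121.OH
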