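import Pool.Agent.N121.OH.Poly
import Pool.Agent.Y118.HP.Cper
import Pool.Agent.Y890.HE.Dom

/-!
# The periods as integrals over segments
-/

set_option autoImplicit false
set_option linter.unusedSectionVars false

open Complex Set MeasureTheory Filter Topology

namespace Pool.Agent.N121.OH

open Pool.Agent.Y118.HP (dl dl_ne perC fac ker seg sin_sq_mem)
open Pool.Agent.Y890.HE (Ord seg_lt seg_gt slit_of_re)

variable {n : ℕ}

/-- the point of the segment from `p` to `q` -/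
noncomputable def sg (p q : ℂ) (t : ℝ) : ℂ := (1 - t) * p + t * q

/-- a branch of the square root of `∏ (x - e i)` along the segment from `e l` to `e (l + 1)` -/
noncomputable def rtF (e : Fin (n + 1) → ℂ) (l : Fin n) (x : ℂ) : ℂ :=
  ((1 + I) ^ (1 / 2 : ℂ)) ^ (n + 1) * I ^ ((l : ℕ) % 2) *
    ∏ i : Fin (n + 1), ((if (i : ℕ) ≤ l then x - e i else e i - x) / (1 + I)) ^ (1 / 2 : ℂ)

/-- the period -/
noncomputable def perF (e : Fin (n + 1) → ℂ) (l j : Fin n) : ℂ :=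
  2 * ∫ t in (0 : ℝ)..1, (sg (e l.castSucc) (e l.succ) t) ^ (j : ℕ) / rtF e l (sg (e l.castSucc) (e l.succ) t) *
    (e l.succ - e l.castSucc)

theorem u_ne : (1 + I : ℂ) ≠ 0 := by
  intro h
  have := congrArg Complex.re h
  simp at this

theorem half_sq {z : ℂ} (hz : z ≠ 0) : z ^ (1 / 2 : ℂ) * z ^ (1 / 2 : ℂ) = z := by
  rw [← cpow_add _ _ hz]
  norm_num

theorem w_sq : ((1 + I : ℂ) ^ (1 / 2 : ℂ)) ^ 2 = 1 + I := by
  rw [sq]
  exact half_sq u_ne

theorem w_ne : ((1 + I : ℂ) ^ (1 / 2 : ℂ)) ≠ 0 := by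
  intro h
  have h1 := w_sq
  rw [h] at h1
  exact u_ne (by rw [← h1]; ring)

/-- the square of the branch -/
theorem rtF_sq (hn : Even n) (e : Fin (n + 1) → ℂ) (l : Fin n) (x : ℂ) : rtF e l x ^ 2 = ∏ i, (x - e i) := by
  have h0 : ∀ z : ℂ, (z ^ (1 / 2 : ℂ)) ^ 2 = z := by
    intro z
    rcases eq_or_ne z 0 with rfl | hz
    · rw [zero_cpow (by norm_num)]
      simp
    · rw [sq, half_sq hz]
  unfold rtF
  rw [mul_pow, mul_pow, ← Finset.prod_pow]
  simp only [h0]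
  rw [Finset.prod_div_distrib, Finset.prod_const, Finset.card_univ, Fintype.card_fin, ← pow_mul, mul_comm (n + 1) 2,
    pow_mul, h0, ← pow_mul]
  have h1 : ∏ i : Fin (n + 1), (if (i : ℕ) ≤ l then x - e i else e i - x) =
      (∏ i : Fin (n + 1), (if (i : ℕ) ≤ l then (1 : ℂ) else -1)) * ∏ i, (x - e i) := by
    rw [← Finset.prod_mul_distrib]
    refine Finset.prod_congr rfl fun i _ => ?_
    split_ifs <;> ring
  have h2 : (∏ i : Fin (n + 1), (if (i : ℕ) ≤ l then (1 : ℂ) else -1)) = (-1) ^ (n - (l : ℕ)) := by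
    rw [Finset.prod_ite, Finset.prod_const_one, one_mul, Finset.prod_const]
    congr 1
    have h3 : (Finset.univ.filter fun i : Fin (n + 1) => ¬ (i : ℕ) ≤ l) = Finset.Ioi (l.castSucc) := by
      ext i
      simp [Fin.lt_def]
    rw [h3, Fin.card_Ioi]
    simp
  have h4 : I ^ ((l : ℕ) % 2 * 2) * (-1) ^ (n - (l : ℕ)) = (1 : ℂ) := by
    have h5 : I ^ ((l : ℕ) % 2 * 2) = (-1 : ℂ) ^ (l : ℕ) := by
      rw [mul_comm, pow_mul, I_sq]
      exact (neg_one_pow_eq_pow_mod_two (l : ℕ)).symm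
    rw [h5, ← pow_add, Nat.add_sub_of_le l.2.le, hn.neg_one_pow]
  rw [h1, h2]
  have h6 : (1 + I : ℂ) ^ (n + 1) ≠ 0 := pow_ne_zero _ u_ne
  field_simp
  linear_combination (∏ i, (x - e i)) * h4

theorem mul_cpow_pos {s : ℝ} (hs : 0 < s) {z : ℂ} (hz : z ≠ 0) (r : ℂ) : ((s : ℂ) * z) ^ r = (s : ℂ) ^ r * z ^ r := by
  have hs' : (s : ℂ) ≠ 0 := by exact_mod_cast hs.ne'
  rw [cpow_def_of_ne_zero (mul_ne_zero hs' hz), cpow_def_of_ne_zero hs', cpow_def_of_ne_zero hz,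
    Complex.log_ofReal_mul hs hz, ← Complex.ofReal_log hs.le, add_mul, exp_add]

theorem fac_inv (e : Fin (n + 1) → ℂ) (l : Fin n) (z : ℂ) :
    ∏ i : Fin (n + 1), (if (i : ℕ) ≤ l then z - e i else e i - z) ^ (1 / 2 : ℂ) =
      (z - e l.castSucc) ^ (1 / 2 : ℂ) * (e l.succ - z) ^ (1 / 2 : ℂ) * (∏ i, fac e l i z)⁻¹ := by
  classical
  have hne : l.castSucc ≠ l.succ := Fin.castSucc_lt_succ.ne
  have key : ∀ i : Fin (n + 1), (if (i : ℕ) ≤ l then z - e i else e i - z) ^ (1 / 2 : ℂ) =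
      (if i = l.castSucc then (z - e l.castSucc) ^ (1 / 2 : ℂ) else 1) *
      (if i = l.succ then (e l.succ - z) ^ (1 / 2 : ℂ) else 1) * (fac e l i z)⁻¹ := by
    intro i
    unfold fac
    rcases lt_trichotomy i l.castSucc with h | h | h
    · have h1 : (i : ℕ) ≤ l := by
        rw [Fin.lt_def] at h
        exact h.le
      rw [if_pos h, if_neg h.ne, if_neg (h.trans Fin.castSucc_lt_succ).ne, if_pos h1, cpow_neg, inv_inv]
      ring
    · subst h
      have h1 : ((l.castSucc : Fin (n + 1)) : ℕ) ≤ l := le_rfl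
      rw [if_neg (lt_irrefl _), if_pos rfl, if_neg hne, if_neg (not_lt.2 Fin.castSucc_lt_succ.le), if_pos h1]
      ring
    · have h' : l.succ ≤ i := by
        rw [Fin.le_def]; rw [Fin.lt_def] at h; simp at h ⊢; omega
      have h1 : ¬ ((i : ℕ) ≤ l) := by
        rw [Fin.lt_def] at h
        exact not_le.2 h
      rcases eq_or_lt_of_le h' with h4 | h4
      · subst h4
        rw [if_neg hne.symm, if_pos rfl, if_neg (not_lt.2 Fin.castSucc_lt_succ.le), if_neg (lt_irrefl _), if_neg h1]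
        ring
      · rw [if_neg h.ne', if_neg h4.ne', if_neg (not_lt.2 h.le), if_pos h4, if_neg h1, cpow_neg, inv_inv]
        ring
  rw [Finset.prod_congr rfl fun i _ => key i, Finset.prod_mul_distrib,
    Finset.prod_mul_distrib, Finset.prod_ite_eq' Finset.univ l.castSucc, Finset.prod_ite_eq' Finset.univ l.succ,
    Finset.prod_inv_distrib]
  simp

theorem sqrt_coe {t : ℝ} (ht : 0 ≤ t) : (t : ℂ) ^ (1 / 2 : ℂ) = ((√t : ℝ) : ℂ) := by
  rw [Real.sqrt_eq_rpow, ofReal_cpow ht]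
  push_cast
  rfl

theorem rtF_eq (e : Fin (n + 1) → ℂ) (l : Fin n) (hδ : e l.succ - e l.castSucc ≠ 0) {t : ℝ} (h0 : 0 < t) (h1 : t < 1) :
    rtF (fun r => (1 + I) * e r) l ((1 + I) * seg (e l.castSucc) (e l.succ) t) =
      ((1 + I) ^ (1 / 2 : ℂ)) ^ (n + 1) * I ^ ((l : ℕ) % 2) * (((√t * √(1 - t) : ℝ) : ℂ) * (e l.succ - e l.castSucc) *
        (∏ i, fac e l i (seg (e l.castSucc) (e l.succ) t))⁻¹) := by
  unfold rtF
  have h2 : ∀ i : Fin (n + 1), ((if (i : ℕ) ≤ l then (1 + I) * seg (e l.castSucc) (e l.succ) t - (1 + I) * e i else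
      (1 + I) * e i - (1 + I) * seg (e l.castSucc) (e l.succ) t) / (1 + I)) =
      (if (i : ℕ) ≤ l then seg (e l.castSucc) (e l.succ) t - e i else e i - seg (e l.castSucc) (e l.succ) t) := by
    intro i
    have := u_ne
    split_ifs
    · field_simp
    · field_simp
  simp only [h2]
  rw [fac_inv]
  have h3 : seg (e l.castSucc) (e l.succ) t - e l.castSucc = (t : ℂ) * (e l.succ - e l.castSucc) := by
    unfold seg
    ring
  have h4 : e l.succ - seg (e l.castSucc) (e l.succ) t = ((1 - t : ℝ) : ℂ) * (e l.succ - e l.castSucc) := by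
    unfold seg
    push_cast
    ring
  rw [h3, h4, mul_cpow_pos h0 hδ, mul_cpow_pos (by linarith) hδ, sqrt_coe h0.le, sqrt_coe (by linarith)]
  have h5 := half_sq hδ
  push_cast
  linear_combination (((1 + I) ^ (1 / 2 : ℂ)) ^ (n + 1) * I ^ ((l : ℕ) % 2) * (((√t : ℝ) : ℂ) * ((√(1 - t) : ℝ) : ℂ) *
        (∏ i, fac e l i (seg (e l.castSucc) (e l.succ) t))⁻¹)) * h5

/-- the change of variables `t = sin² θ` -/
theorem cov (g : ℝ → ℂ) : ∫ t in (0 : ℝ)..1, g t =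
    ∫ θ in (0 : ℝ)..(Real.pi / 2), (2 * Real.sin θ * Real.cos θ : ℝ) * g (Real.sin θ ^ 2) := by
  have hp : 0 < Real.pi := Real.pi_pos
  set e : Fin 2 → ℝ := ![0, 1] with he
  have hem : StrictMono e := by
    intro i k hik
    fin_cases i <;> fin_cases k <;> simp_all
  have h1 : Pool.Agent.Y118.HP.xs (n := 1) e 0 = fun θ => Real.sin θ ^ 2 := by
    funext θ
    unfold Pool.Agent.Y118.HP.xs
    simp [he]
  have himg := Pool.Agent.Y118.HP.image_xs (n := 1) hem 0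
  have hinj := Pool.Agent.Y118.HP.injOn_xs (n := 1) hem 0
  have hder := fun θ => Pool.Agent.Y118.HP.hasDerivAt_xs (n := 1) e 0 θ
  rw [h1] at himg hinj
  simp only [h1] at hder
  have h2 : Ioo (e (Fin.castSucc (0 : Fin 1))) (e (Fin.succ (0 : Fin 1))) = Ioo (0 : ℝ) 1 := by simp [he]
  rw [h2] at himg
  have h3 : e (Fin.succ (0 : Fin 1)) - e (Fin.castSucc (0 : Fin 1)) = 1 := by simp [he]
  simp only [h3, one_mul] at hder
  rw [intervalIntegral.integral_of_le zero_le_one,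
    intervalIntegral.integral_of_le (by positivity : (0 : ℝ) ≤ Real.pi / 2), integral_Ioc_eq_integral_Ioo,
    integral_Ioc_eq_integral_Ioo, ← himg,
    integral_image_eq_integral_abs_deriv_smul measurableSet_Ioo
      (fun θ _ => (hder θ).hasDerivWithinAt) hinj]
  refine setIntegral_congr_fun measurableSet_Ioo fun θ hθ => ?_
  have s1 : 0 < Real.sin θ := Real.sin_pos_of_pos_of_lt_pi hθ.1 (by linarith [hθ.2])
  have c1 : 0 < Real.cos θ := Real.cos_pos_of_mem_Ioo ⟨by linarith [hθ.1], hθ.2⟩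
  rw [abs_of_pos (by positivity), Complex.real_smul]

/-- **the periods are the analytic functions** -/
theorem perF_eq {e : Fin (n + 1) → ℂ} (he : e ∈ Ord n) (l j : Fin n) :
    perF (fun r => (1 + I) * e r) l j =
      dl l * (((1 + I : ℂ) ^ (1 / 2 : ℂ)) ^ (2 * (j : ℤ) + 1 - n) * perC e l j) := by
  have hp : 0 < Real.pi := Real.pi_pos
  set w : ℂ := (1 + I : ℂ) ^ (1 / 2 : ℂ) with hw
  have hw0 : w ≠ 0 := w_ne
  have hw2 : w ^ 2 = 1 + I := w_sq
  have hδ : e l.succ - e l.castSucc ≠ 0 := by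
    intro h0
    have h1 := he _ _ (Fin.castSucc_lt_succ (i := l))
    rw [sub_eq_zero] at h0
    rw [h0] at h1
    exact lt_irrefl _ h1
  unfold perF perC
  rw [cov]
  have hsg : ∀ t : ℝ, sg ((1 + I) * e l.castSucc) ((1 + I) * e l.succ) t = (1 + I) * seg (e l.castSucc) (e l.succ) t := by
    intro t
    unfold sg seg
    ring
  have h1 : ∫ θ in (0 : ℝ)..(Real.pi / 2), ((2 * Real.sin θ * Real.cos θ : ℝ) : ℂ) *
      ((sg ((1 + I) * e l.castSucc) ((1 + I) * e l.succ) (Real.sin θ ^ 2)) ^ (j : ℕ) /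
        rtF (fun r => (1 + I) * e r) l (sg ((1 + I) * e l.castSucc) ((1 + I) * e l.succ) (Real.sin θ ^ 2)) *
          ((1 + I) * e l.succ - (1 + I) * e l.castSucc)) =
      ∫ θ in (0 : ℝ)..(Real.pi / 2), (w ^ (2 * (j : ℤ) + 1 - n) * (I ^ ((l : ℕ) % 2))⁻¹) *
        (2 * ker e l j (seg (e l.castSucc) (e l.succ) (Real.sin θ ^ 2))) := by
    rw [intervalIntegral.integral_of_le (by positivity : (0 : ℝ) ≤ Real.pi / 2),
      intervalIntegral.integral_of_le (by positivity : (0 : ℝ) ≤ Real.pi / 2), integral_Ioc_eq_integral_Ioo,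
      integral_Ioc_eq_integral_Ioo]
    refine setIntegral_congr_fun measurableSet_Ioo fun θ hθ => ?_
    have s1 : 0 < Real.sin θ := Real.sin_pos_of_pos_of_lt_pi hθ.1 (by linarith [hθ.2])
    have c1 : 0 < Real.cos θ := Real.cos_pos_of_mem_Ioo ⟨by linarith [hθ.1], hθ.2⟩
    have hs : Real.sin θ ^ 2 < 1 := by nlinarith [Real.sin_sq_add_cos_sq θ, pow_pos c1 2]
    rw [hsg, rtF_eq e l hδ (pow_pos s1 2) hs]
    have h2 : √(Real.sin θ ^ 2) = Real.sin θ := Real.sqrt_sq s1.le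
    have h3 : √(1 - Real.sin θ ^ 2) = Real.cos θ := by
      have : 1 - Real.sin θ ^ 2 = Real.cos θ ^ 2 := by linarith [Real.sin_sq_add_cos_sq θ]
      rw [this, Real.sqrt_sq c1.le]
    rw [h2, h3, ← hw]
    unfold Pool.Agent.Y118.HP.ker
    set z := seg (e l.castSucc) (e l.succ) (Real.sin θ ^ 2) with hz
    set pr := ∏ i, fac e l i z with hpr
    have hpw : w ^ (2 * (j : ℤ) + 1 - n) * w ^ (n + 1) = (1 + I) ^ ((j : ℕ) + 1) := by
      rw [← hw2, ← pow_mul, ← zpow_natCast, ← zpow_natCast, ← zpow_add₀ hw0]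
      congr 1
      push_cast
      ring
    have hs0 : ((Real.sin θ : ℝ) : ℂ) ≠ 0 := by exact_mod_cast s1.ne'
    have hc0 : ((Real.cos θ : ℝ) : ℂ) ≠ 0 := by exact_mod_cast c1.ne'
    have hI0 : (I ^ ((l : ℕ) % 2) : ℂ) ≠ 0 := pow_ne_zero _ I_ne_zero
    have hwn : w ^ (n + 1) ≠ 0 := pow_ne_zero _ hw0
    rw [mul_pow, div_eq_mul_inv, mul_inv, mul_inv, mul_inv, mul_inv, inv_inv]
    have hA : w ^ (2 * (j : ℤ) + 1 - n) = (1 + I) ^ ((j : ℕ) + 1) * (w ^ (n + 1))⁻¹ := by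
      rw [← hpw, mul_inv_cancel_right₀ hwn]
    rw [hA]
    push_cast
    have e1 : ((Real.sin θ : ℝ) : ℂ) * ((Real.sin θ : ℝ) : ℂ)⁻¹ = 1 := mul_inv_cancel₀ hs0
    have e2 : ((Real.cos θ : ℝ) : ℂ) * ((Real.cos θ : ℝ) : ℂ)⁻¹ = 1 := mul_inv_cancel₀ hc0
    have e3 : (e l.succ - e l.castSucc) * (e l.succ - e l.castSucc)⁻¹ = 1 := mul_inv_cancel₀ hδ
    rw [mul_inv]
    push_cast at e1 e2
    calc _ = (Complex.sin θ * (Complex.sin θ)⁻¹) * (Complex.cos θ * (Complex.cos θ)⁻¹) *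
          ((e l.succ - e l.castSucc) * (e l.succ - e l.castSucc)⁻¹) *
          (2 * (1 + I) ^ ((j : ℕ) + 1) * (w ^ (n + 1))⁻¹ * (I ^ ((l : ℕ) % 2))⁻¹ * z ^ (j : ℕ) * pr) := by ring
      _ = _ := by
        rw [e1, e2, e3]
        ring
  refine (congrArg (fun z : ℂ => 2 * z) h1).trans ?_
  rw [intervalIntegral.integral_const_mul]
  have h2 : dl l = 2 * (I ^ ((l : ℕ) % 2))⁻¹ := by
    unfold dl
    have hI3 : I ^ 3 = I⁻¹ := by
      rw [pow_succ, I_sq, inv_I]; ring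
    rcases Nat.even_or_odd (l : ℕ) with h | h
    · rw [if_pos h, Nat.even_iff.1 h]
      simp
    · rw [if_neg (Nat.not_even_iff_odd.2 h), Nat.odd_iff.1 h, hI3, pow_one]
  rw [h2]
  ring

end Pool.Agent.N121.OH
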