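import Mathlib

/-!
# Integral points of weighted boxes: points near a null set, points on hypersurfaces
-/

set_option autoImplicit false
set_option linter.unusedSectionVars false

open Finset MeasureTheory Topology Filter

namespace Pool.Agent.N121.OH

variable {X : Type} [Fintype X] [DecidableEq X]

/-- the integral points with `|a i| ≤ T ^ w i` -/
noncomputable def BX (w : X → ℕ) (T : ℕ) : Finset (X → ℤ) := Fintype.piFinset fun i => Finset.Icc (-(T : ℤ) ^ w i) ((T : ℤ) ^ w i)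

theorem mem_BX {w : X → ℕ} {T : ℕ} {a : X → ℤ} : a ∈ BX w T ↔ ∀ i, |a i| ≤ (T : ℤ) ^ w i := by
  unfold BX
  rw [Fintype.mem_piFinset]
  refine forall_congr' fun i => ?_
  rw [Finset.mem_Icc, abs_le]

theorem BX_card (w : X → ℕ) (T : ℕ) : ((BX w T).card : ℝ) = ∏ i, (2 * (T : ℝ) ^ w i + 1) := by
  unfold BX
  rw [Fintype.card_piFinset]
  push_cast
  refine Finset.prod_congr rfl fun i _ => ?_
  have h1 : ((Finset.Icc (-(T : ℤ) ^ w i) ((T : ℤ) ^ w i)).card : ℤ) = 2 * (T : ℤ) ^ w i + 1 := by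
    have h2 : (0 : ℤ) ≤ (T : ℤ) ^ w i := by positivity
    rw [Int.card_Icc_of_le _ _ (by linarith)]
    ring
  exact_mod_cast h1

/-- the side of the scaling: `T < (sd T) ^ 2 ≤ 4 T` -/
def sd (T : ℕ) : ℕ := Nat.sqrt T + 1

theorem sd_pos (T : ℕ) : 0 < sd T := Nat.succ_pos _

theorem lt_sd (T : ℕ) : T < sd T ^ 2 := by
  unfold sd
  have := Nat.lt_succ_sqrt T
  rw [sq]
  exact this

theorem sd_le {T : ℕ} (hT : 1 ≤ T) : sd T ^ 2 ≤ 4 * T := by
  unfold sd
  have h1 := Nat.sqrt_le T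
  have h2 : Nat.sqrt T ≤ T := Nat.sqrt_le_self T
  nlinarith

/-- the scaled point -/
noncomputable def sc (w : X → ℕ) (T : ℕ) (a : X → ℤ) (i : X) : ℝ := (a i : ℝ) / ((sd T : ℝ) ^ 2) ^ w i

/-- complex points -/
def cx (x : X → ℝ) (i : X) : ℂ := (x i : ℂ)

theorem cx_continuous : Continuous (cx (X := X)) := by
  unfold cx
  fun_prop

theorem dist_cx (x y : X → ℝ) : dist (cx x) (cx y) = dist x y := by
  unfold cx
  simp only [dist_pi_def]
  congr 1
  refine Finset.sup_congr rfl fun i _ => ?_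
  ext
  simp [Complex.dist_eq, Real.dist_eq, ← Complex.ofReal_sub]

theorem norm_cx (x : X → ℝ) : ‖cx x‖ = ‖x‖ := by
  have h := dist_cx x 0
  have h0 : cx (0 : X → ℝ) = 0 := by
    funext i
    simp [cx]
  rwa [h0, dist_zero_right, dist_zero_right] at h

theorem sc_abs_le {w : X → ℕ} {T : ℕ} {a : X → ℤ} (ha : a ∈ BX w T) (i : X) : |sc w T a i| ≤ 1 := by
  unfold sc
  have h1 := mem_BX.1 ha i
  have h2 : |(a i : ℝ)| ≤ (T : ℝ) ^ w i := by exact_mod_cast h1
  have h3 : (T : ℝ) ≤ (sd T : ℝ) ^ 2 := by exact_mod_cast (lt_sd T).le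
  have h4 : (0 : ℝ) < ((sd T : ℝ) ^ 2) ^ w i := by
    have : (0 : ℝ) < sd T := by exact_mod_cast sd_pos T
    positivity
  rw [abs_div, abs_of_pos h4, div_le_one h4]
  exact h2.trans (pow_le_pow_left₀ (Nat.cast_nonneg _) h3 _)

/-- the bad points -/
def Wk (U : Set (X → ℂ)) (k : ℕ) : Set (X → ℝ) :=
  Set.Icc (fun _ => -2) (fun _ => 2) ∩ {x | ∃ y ∉ U, dist y (cx x) < ((k : ℝ) + 1)⁻¹}

theorem Wk_meas (U : Set (X → ℂ)) (k : ℕ) : MeasurableSet (Wk U k) := by
  refine measurableSet_Icc.inter (IsOpen.measurableSet ?_)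
  have h : {x : X → ℝ | ∃ y ∉ U, dist y (cx x) < ((k : ℝ) + 1)⁻¹} =
      ⋃ y ∈ Uᶜ, {x | dist y (cx x) < ((k : ℝ) + 1)⁻¹} := by
    ext x
    simp
  rw [h]
  refine isOpen_biUnion fun y _ => ?_
  exact isOpen_lt (continuous_const.dist cx_continuous) continuous_const

theorem Wk_anti (U : Set (X → ℂ)) : Antitone (Wk U) := by
  intro k l hkl x hx
  refine ⟨hx.1, ?_⟩
  obtain ⟨y, hy, hd⟩ := hx.2
  refine ⟨y, hy, hd.trans_le ?_⟩
  have : (k : ℝ) ≤ l := by exact_mod_cast hkl
  gcongr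

theorem Wk_tendsto {U : Set (X → ℂ)} (hU : IsOpen U) (hnull : volume {x : X → ℝ | cx x ∉ U} = 0) :
    Tendsto (fun k => volume (Wk U k)) atTop (𝓝 0) := by
  have h1 : volume (⋂ k, Wk U k) = 0 := by
    refine measure_mono_null ?_ hnull
    intro x hx
    by_contra hcon
    simp only [Set.mem_ofPred_eq, not_not] at hcon
    obtain ⟨ε, hε, hball⟩ := Metric.isOpen_iff.1 hU _ hcon
    obtain ⟨k, hk⟩ := exists_nat_one_div_lt hε
    obtain ⟨y, hy, hd⟩ := (Set.mem_iInter.1 hx k).2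
    apply hy
    apply hball
    rw [Metric.mem_ball]
    rw [one_div] at hk
    exact hd.trans hk
  have h2 := tendsto_measure_iInter_atTop (μ := (volume : Measure (X → ℝ))) (s := Wk U)
    (fun k => (Wk_meas U k).nullMeasurableSet) (Wk_anti U)
    ⟨0, ne_top_of_le_ne_top (isCompact_Icc (a := fun _ : X => (-2 : ℝ)) (b := fun _ => 2)).measure_lt_top.ne
      (measure_mono Set.inter_subset_left)⟩
  rwa [h1] at h2

/-- the cube of a point -/
def cube (w : X → ℕ) (T : ℕ) (a : X → ℤ) : Set (X → ℝ) :=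
  Set.pi Set.univ fun i => Set.Ico (sc w T a i) (sc w T a i + 1 / ((sd T : ℝ) ^ 2) ^ w i)

theorem cube_meas (w : X → ℕ) (T : ℕ) (a : X → ℤ) : MeasurableSet (cube w T a) :=
  MeasurableSet.univ_pi fun _ => measurableSet_Ico

theorem cube_vol (w : X → ℕ) (T : ℕ) (a : X → ℤ) :
    volume (cube w T a) = ENNReal.ofReal (∏ i, 1 / ((sd T : ℝ) ^ 2) ^ w i) := by
  unfold cube
  rw [Real.volume_pi_Ico, ENNReal.ofReal_prod_of_nonneg fun i _ => by positivity]
  refine Finset.prod_congr rfl fun i _ => ?_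
  congr 1
  ring

theorem cube_disj (w : X → ℕ) (T : ℕ) {a b : X → ℤ} (hab : a ≠ b) : Disjoint (cube w T a) (cube w T b) := by
  rw [Set.disjoint_left]
  intro x ha hb
  apply hab
  funext i
  have h1 := ha i (Set.mem_univ i)
  have h2 := hb i (Set.mem_univ i)
  have hs : (0 : ℝ) < ((sd T : ℝ) ^ 2) ^ w i := by
    have : (0 : ℝ) < sd T := by exact_mod_cast sd_pos T
    positivity
  have key : ∀ c : X → ℤ, x i ∈ Set.Ico (sc w T c i) (sc w T c i + 1 / ((sd T : ℝ) ^ 2) ^ w i) →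
      ⌊x i * ((sd T : ℝ) ^ 2) ^ w i⌋ = c i := by
    intro c hc
    rw [Int.floor_eq_iff]
    unfold sc at hc
    obtain ⟨h3, h4⟩ := hc
    rw [div_le_iff₀ hs] at h3
    rw [← add_div, lt_div_iff₀ hs] at h4
    exact ⟨h3, h4⟩
  exact (key a h1).symm.trans (key b h2)

/-- **few integral points near a closed null set** -/
theorem few_near {U : Set (X → ℂ)} (hU : IsOpen U) (hnull : volume {x : X → ℝ | cx x ∉ U} = 0) {w : X → ℕ}
    (hw : ∀ i, 1 ≤ w i) {ε : ℝ} (hε : 0 < ε) : ∃ k : ℕ, 0 < k ∧ ∀ T : ℕ, k ≤ T → ∀ B ⊆ BX w T,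
      (∀ a ∈ B, ¬ (‖cx (sc w T a)‖ ≤ k ∧ Metric.ball (cx (sc w T a)) (k : ℝ)⁻¹ ⊆ U)) →
      (B.card : ℝ) ≤ ε * (BX w T).card := by
  classical
  set M : ℝ := 4 ^ (∑ i, w i) with hM
  have hM0 : 0 < M := by positivity
  have h1 := Wk_tendsto hU hnull
  have h2 : ∀ᶠ k in atTop, volume (Wk U k) < ENNReal.ofReal (ε / M) :=
    h1.eventually (gt_mem_nhds (ENNReal.ofReal_pos.2 (div_pos hε hM0)))
  obtain ⟨k, hk⟩ := h2.exists
  refine ⟨2 * (k + 1), by omega, fun T hT B hB hbad => ?_⟩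
  have hT1 : 1 ≤ T := by omega
  have hTr : (2 * ((k : ℝ) + 1)) ≤ T := by exact_mod_cast hT
  have hsd0 : (0 : ℝ) < sd T := by exact_mod_cast sd_pos T
  have hsT : (T : ℝ) ≤ (sd T : ℝ) ^ 2 := by exact_mod_cast (lt_sd T).le
  have hsT4 : (sd T : ℝ) ^ 2 ≤ 4 * T := by exact_mod_cast sd_le hT1
  have hk1 : (0 : ℝ) < (k : ℝ) + 1 := by positivity
  -- the cubes are contained in `Wk U k`
  have hsub : ∀ a ∈ B, cube w T a ⊆ Wk U k := by
    intro a ha x hx
    have hab := hB ha
    have hx1 : ∀ i, |x i - sc w T a i| ≤ (2 * ((k : ℝ) + 1))⁻¹ := by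
      intro i
      have h3 := hx i (Set.mem_univ i)
      have h4 : 1 / ((sd T : ℝ) ^ 2) ^ w i ≤ (2 * ((k : ℝ) + 1))⁻¹ := by
        rw [one_div]
        refine inv_anti₀ (by positivity) ?_
        have h5 : (1 : ℝ) ≤ (sd T : ℝ) ^ 2 := by
          have : (1 : ℝ) ≤ T := by exact_mod_cast hT1
          linarith
        calc 2 * ((k : ℝ) + 1) ≤ (sd T : ℝ) ^ 2 := hTr.trans hsT
          _ = ((sd T : ℝ) ^ 2) ^ 1 := (pow_one _).symm
          _ ≤ _ := pow_le_pow_right₀ h5 (hw i)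
      rw [abs_le]
      have h6 : (0 : ℝ) < (2 * ((k : ℝ) + 1))⁻¹ := by positivity
      constructor
      · linarith [h3.1]
      · linarith [h3.2]
    have hle1 : (2 * ((k : ℝ) + 1))⁻¹ ≤ 1 := by
      apply inv_le_one_of_one_le₀
      have : (0 : ℝ) ≤ k := Nat.cast_nonneg _
      linarith
    have hx2 : ∀ i, |x i| ≤ 2 := by
      intro i
      have h3 := hx1 i
      have h4 := sc_abs_le hab i
      have h5 : |x i| ≤ |x i - sc w T a i| + |sc w T a i| := by
        have := abs_add_le (x i - sc w T a i) (sc w T a i)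
        simpa using this
      linarith
    refine ⟨⟨fun i => (abs_le.1 (hx2 i)).1, fun i => (abs_le.1 (hx2 i)).2⟩, ?_⟩
    have h3 := hbad a ha
    rw [not_and_or] at h3
    rcases h3 with h3 | h3
    · exfalso
      apply h3
      rw [norm_cx]
      push_cast
      refine (pi_norm_le_iff_of_nonneg (by positivity)).2 fun i => ?_
      rw [Real.norm_eq_abs]
      refine (sc_abs_le hab i).trans ?_
      have : (0 : ℝ) ≤ k := Nat.cast_nonneg _
      linarith
    · rw [Set.not_subset] at h3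
      obtain ⟨y, hy1, hy2⟩ := h3
      refine ⟨y, hy2, ?_⟩
      rw [Metric.mem_ball] at hy1
      push_cast at hy1
      have h4 : dist (cx (sc w T a)) (cx x) ≤ (2 * ((k : ℝ) + 1))⁻¹ := by
        rw [dist_cx, dist_comm]
        refine (dist_pi_le_iff (by positivity)).2 fun i => ?_
        rw [Real.dist_eq]
        exact hx1 i
      have h5 := dist_triangle y (cx (sc w T a)) (cx x)
      have h6 : (2 * ((k : ℝ) + 1))⁻¹ + (2 * ((k : ℝ) + 1))⁻¹ = ((k : ℝ) + 1)⁻¹ := by
        field_simp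
        norm_num
      linarith
  have h3 : volume (⋃ a ∈ B, cube w T a) = B.card * ENNReal.ofReal (∏ i, 1 / ((sd T : ℝ) ^ 2) ^ w i) := by
    rw [measure_biUnion_finset (fun a _ b _ hab => cube_disj w T hab) fun a _ => cube_meas w T a]
    simp only [cube_vol, Finset.sum_const, nsmul_eq_mul]
  have h4 : volume (⋃ a ∈ B, cube w T a) ≤ ENNReal.ofReal (ε / M) :=
    (measure_mono (Set.iUnion₂_subset hsub)).trans hk.le
  rw [h3] at h4
  have hP0 : (0 : ℝ) < ∏ i, 1 / ((sd T : ℝ) ^ 2) ^ w i := Finset.prod_pos fun i _ => by positivity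
  have h5 : (B.card : ℝ) * ∏ i, 1 / ((sd T : ℝ) ^ 2) ^ w i ≤ ε / M := by
    have h6 : ((B.card : ENNReal)) = ENNReal.ofReal (B.card : ℝ) := (ENNReal.ofReal_natCast _).symm
    rw [h6, ← ENNReal.ofReal_mul (Nat.cast_nonneg _)] at h4
    exact (ENNReal.ofReal_le_ofReal_iff (by positivity)).1 h4
  have h7 : (∏ i, 1 / ((sd T : ℝ) ^ 2) ^ w i) * ∏ i, ((sd T : ℝ) ^ 2) ^ w i = 1 := by
    rw [← Finset.prod_mul_distrib]
    refine Finset.prod_eq_one fun i _ => ?_
    have : ((sd T : ℝ) ^ 2) ^ w i ≠ 0 := by positivity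
    field_simp
  have h8 : ∏ i, ((sd T : ℝ) ^ 2) ^ w i ≤ M * (BX w T).card := by
    rw [BX_card, hM, ← Finset.prod_pow_eq_pow_sum, ← Finset.prod_mul_distrib]
    refine Finset.prod_le_prod (fun i _ => by positivity) fun i _ => ?_
    calc ((sd T : ℝ) ^ 2) ^ w i ≤ (4 * (T : ℝ)) ^ w i := pow_le_pow_left₀ (by positivity) hsT4 _
      _ = 4 ^ w i * (T : ℝ) ^ w i := mul_pow _ _ _
      _ ≤ 4 ^ w i * (2 * (T : ℝ) ^ w i + 1) := by
        have : (0 : ℝ) ≤ (T : ℝ) ^ w i := by positivity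
        gcongr
        linarith
  calc (B.card : ℝ) = (B.card : ℝ) * ((∏ i, 1 / ((sd T : ℝ) ^ 2) ^ w i) * ∏ i, ((sd T : ℝ) ^ 2) ^ w i) := by
        rw [h7, mul_one]
    _ = ((B.card : ℝ) * ∏ i, 1 / ((sd T : ℝ) ^ 2) ^ w i) * ∏ i, ((sd T : ℝ) ^ 2) ^ w i := by ring
    _ ≤ (ε / M) * (M * (BX w T).card) := mul_le_mul h5 h8 (by positivity) (by positivity)
    _ = ε * (BX w T).card := by
      field_simp

/-- few integral points on a hypersurface -/
theorem few_on (w : X → ℕ) (hw : ∀ i, 1 ≤ w i) {P : MvPolynomial X ℂ} (hP : P ≠ 0) {D : ℕ} (hD : P.totalDegree ≤ D)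
    {T : ℕ} (hT : 1 ≤ T) : (((BX w T).filter fun a => MvPolynomial.eval (cx (sc w T a)) P = 0).card : ℝ) ≤
      D / T * (BX w T).card := by
  classical
  set e := Fintype.equivFin X with he
  set N := Fintype.card X with hN
  set P' : MvPolynomial (Fin N) ℂ := MvPolynomial.rename e P with hP'
  have hP'0 : P' ≠ 0 := by
    rw [hP']
    exact (map_ne_zero_iff _ (MvPolynomial.rename_injective _ e.injective)).2 hP
  have hs : ∀ i : X, ((sd T : ℝ) ^ 2) ^ w i ≠ 0 := by
    intro i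
    have : (0 : ℝ) < sd T := by exact_mod_cast sd_pos T
    positivity
  have hinj : ∀ i : X, Function.Injective fun z : ℤ => (((z : ℝ) / ((sd T : ℝ) ^ 2) ^ w i : ℝ) : ℂ) := by
    intro i a b hab
    simp only [Complex.ofReal_inj] at hab
    rw [div_left_inj' (hs i)] at hab
    exact_mod_cast hab
  set S : Fin N → Finset ℂ := fun j => (Finset.Icc (-(T : ℤ) ^ w (e.symm j)) ((T : ℤ) ^ w (e.symm j))).image
    fun z : ℤ => (((z : ℝ) / ((sd T : ℝ) ^ 2) ^ w (e.symm j) : ℝ) : ℂ) with hS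
  have hScard : ∀ j, ((S j).card : ℝ) = 2 * (T : ℝ) ^ w (e.symm j) + 1 := by
    intro j
    rw [hS]
    simp only
    rw [Finset.card_image_of_injective _ (hinj _)]
    have h1 : ((Finset.Icc (-(T : ℤ) ^ w (e.symm j)) ((T : ℤ) ^ w (e.symm j))).card : ℤ) =
        2 * (T : ℤ) ^ w (e.symm j) + 1 := by
      have h2 : (0 : ℤ) ≤ (T : ℤ) ^ w (e.symm j) := by positivity
      rw [Int.card_Icc_of_le _ _ (by linarith)]
      ring
    exact_mod_cast h1
  have hprod : ((∏ j, (S j).card : ℕ) : ℝ) = (BX w T).card := by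
    rw [BX_card]
    push_cast
    simp only [hScard]
    exact Equiv.prod_comp e.symm fun i => (2 * (T : ℝ) ^ w i + 1)
  have h1 := MvPolynomial.schwartz_zippel_sup_sum hP'0 S
  -- the degree
  have h2 : (P'.support.sup fun s => ∑ i, (s i / (S i).card : NNRat)) ≤ (D : NNRat) / T := by
    refine Finset.sup_le fun s hs' => ?_
    have h3 : ∀ i ∈ (Finset.univ : Finset (Fin N)), (s i / (S i).card : NNRat) ≤ (s i : NNRat) / T := by
      intro i _
      have h4 : (T : NNRat) ≤ (S i).card := by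
        have h5 : (T : ℝ) ≤ (S i).card := by
          rw [hScard]
          have h6 : (T : ℝ) ≤ (T : ℝ) ^ w (e.symm i) := by
            have : (1 : ℝ) ≤ T := by exact_mod_cast hT
            calc (T : ℝ) = (T : ℝ) ^ 1 := (pow_one _).symm
              _ ≤ _ := pow_le_pow_right₀ this (hw _)
          have h7 : (0 : ℝ) ≤ (T : ℝ) := Nat.cast_nonneg _
          linarith
        exact_mod_cast h5
      have h8 : (0 : NNRat) < T := by exact_mod_cast hT
      gcongr
    refine (Finset.sum_le_sum h3).trans ?_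
    rw [← Finset.sum_div]
    have h9 : (∑ i, s i) ≤ D := by
      have h10 := MvPolynomial.le_totalDegree hs'
      have h11 : (s.sum fun _ e => e) = ∑ i, s i := Finsupp.sum_fintype _ _ (fun _ => rfl)
      have h12 : P'.totalDegree ≤ P.totalDegree := MvPolynomial.totalDegree_rename_le _ _
      omega
    have h13 : ((∑ i, s i : ℕ) : NNRat) ≤ D := by exact_mod_cast h9
    push_cast at h13
    gcongr
  have h3 := h1.trans h2
  -- comparison of the sets
  have h4 : ((BX w T).filter fun a => MvPolynomial.eval (cx (sc w T a)) P = 0).card ≤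
      ((Fintype.piFinset S).filter fun x => MvPolynomial.eval x P' = 0).card := by
    refine Finset.card_le_card_of_injOn (fun a j => cx (sc w T a) (e.symm j)) ?_ ?_
    · intro a ha
      rw [Finset.mem_coe, Finset.mem_filter] at ha
      rw [Finset.mem_coe, Finset.mem_filter]
      refine ⟨?_, ?_⟩
      · rw [Fintype.mem_piFinset]
        intro j
        refine Finset.mem_image.2 ⟨a (e.symm j), ?_, rfl⟩
        have := mem_BX.1 ha.1 (e.symm j)
        rw [abs_le] at this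
        exact Finset.mem_Icc.2 this
      · rw [hP', MvPolynomial.eval_rename]
        have h5 : ((fun j => cx (sc w T a) (e.symm j)) ∘ e) = cx (sc w T a) := by
          funext i
          simp
        rw [h5]
        exact ha.2
    · intro a _ b _ hab
      funext i
      have h5 := congrFun hab (e i)
      simp only [Equiv.symm_apply_apply] at h5
      exact hinj i h5
  have hprodpos : (0 : ℝ) < ((∏ j, (S j).card : ℕ) : ℝ) := by
    rw [hprod, BX_card]
    exact Finset.prod_pos fun i _ => by positivity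
  have h5 : ((((Fintype.piFinset S).filter fun x => MvPolynomial.eval x P' = 0).card : ℝ)) /
      ((∏ j, (S j).card : ℕ) : ℝ) ≤ (D : ℝ) / T := by
    have h6 : ((((Fintype.piFinset S).filter fun x => MvPolynomial.eval x P' = 0).card : NNRat)) /
      ((∏ j, (S j).card : ℕ) : NNRat) ≤ (D : NNRat) / T := by
      push_cast
      exact h3
    have h7 := (NNRat.cast_le (K := ℝ)).2 h6
    rw [NNRat.cast_div, NNRat.cast_div] at h7
    simpa only [NNRat.cast_natCast] using h7
  rw [div_le_iff₀ hprodpos, hprod] at h5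
  have h6 : (((BX w T).filter fun a => MvPolynomial.eval (cx (sc w T a)) P = 0).card : ℝ) ≤
      (((Fintype.piFinset S).filter fun x => MvPolynomial.eval x P' = 0).card : ℝ) := by exact_mod_cast h4
  exact h6.trans h5

end Pool.Agent.N121.OH
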