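import Pool.Agent.N121.OH.Root

/-!
# The real polynomials whose roots are not separated by the direction `u` are the zeros of a polynomial
-/

set_option autoImplicit false

open Polynomial ComplexConjugate

namespace Pool.Agent.N121.OH

variable {n : ℕ}

theorem exists_enum {α : Type*} {N : ℕ} (s : Multiset α) (h : s.card = N) :
    ∃ z : Fin N → α, s = Multiset.map z Finset.univ.val := by
  induction s using Quot.inductionOn with
  | h l =>
    have hl : l.length = N := h
    subst hl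
    refine ⟨l.get, ?_⟩
    rw [Fin.univ_val_map, List.ofFn_get]
    rfl

/-- numbering of the roots -/
theorem exists_roots {p : ℂ[X]} (hp : p.Monic) (hd : p.natDegree = n + 1) :
    ∃ z : Fin (n + 1) → ℂ, p = rp z := by
  obtain ⟨z, hz⟩ := exists_enum p.roots (N := n + 1) (by rw [IsAlgClosed.card_roots_eq_natDegree, hd])
  refine ⟨z, ?_⟩
  have h1 := (IsAlgClosed.splits p).eq_prod_roots_of_monic hp
  rw [hz, Multiset.map_map] at h1
  exact h1

/-- the roots in the order of their real parts -/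
theorem mem_Un_of_sep {u : ℂ} (hu : u ≠ 0) {a : Fin (n + 1) → ℂ} {z : Fin (n + 1) → ℂ} (hz : cp a = rp z)
    (hinj : Function.Injective fun r => (u⁻¹ * z r).re) : a ∈ Un u n := by
  set f : Fin (n + 1) → ℝ := fun r => (u⁻¹ * z r).re with hf
  set σ := Tuple.sort f with hσ
  have h1 : StrictMono (f ∘ σ) := (Tuple.monotone_sort f).strictMono_of_injective (hinj.comp σ.injective)
  refine ⟨fun r => u⁻¹ * z (σ r), fun i k hik => h1 hik, ?_⟩
  rw [hz]
  have h2 : (fun r => u * (u⁻¹ * z (σ r))) = fun r => z (σ r) := by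
    funext r
    rw [mul_inv_cancel_left₀ hu]
  rw [h2]
  unfold rp
  exact (Equiv.prod_comp σ fun r => X - C (z r)).symm

/-- the symmetric polynomial -/
noncomputable def Sy (n : ℕ) (u : ℂ) : MvPolynomial (Fin (n + 1)) ℂ :=
  ∏ p : (Fin (n + 1) × Fin (n + 1)) × (Fin (n + 1) × Fin (n + 1)),
    if p.1.1 = p.1.2 ∨ p.2.1 = p.2.2 then 1
    else (MvPolynomial.X p.1.1 - MvPolynomial.X p.1.2) * MvPolynomial.C (conj u) +
      (MvPolynomial.X p.2.1 - MvPolynomial.X p.2.2) * MvPolynomial.C u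

theorem Sy_symm (u : ℂ) : (Sy n u).IsSymmetric := by
  intro σ
  unfold Sy
  rw [map_prod]
  refine Fintype.prod_equiv ((σ.prodCongr σ).prodCongr (σ.prodCongr σ)) _ _ ?_
  rintro ⟨⟨i, j⟩, ⟨k, l⟩⟩
  simp only [Equiv.prodCongr_apply, Prod.map, EmbeddingLike.apply_eq_iff_eq]
  split_ifs
  · simp
  · simp

theorem Sy_eval (u : ℂ) (z : Fin (n + 1) → ℂ) : MvPolynomial.eval z (Sy n u) =
    ∏ p : (Fin (n + 1) × Fin (n + 1)) × (Fin (n + 1) × Fin (n + 1)),
      if p.1.1 = p.1.2 ∨ p.2.1 = p.2.2 then 1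
      else (z p.1.1 - z p.1.2) * conj u + (z p.2.1 - z p.2.2) * u := by
  unfold Sy
  rw [map_prod]
  refine Finset.prod_congr rfl fun p _ => ?_
  split_ifs
  · simp
  · simp

theorem Sy_ne {u : ℂ} (hr : u.re ≠ 0) (hi : u.im ≠ 0) : MvPolynomial.eval (fun r : Fin (n + 1) => ((r : ℕ) : ℂ)) (Sy n u) ≠ 0 := by
  rw [Sy_eval, Finset.prod_ne_zero_iff]
  rintro ⟨⟨i, j⟩, ⟨k, l⟩⟩ _
  simp only
  split_ifs with h
  · exact one_ne_zero
  · rw [not_or] at h
    intro h0
    have h1 := congrArg Complex.re h0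
    have h2 := congrArg Complex.im h0
    simp only [Complex.add_re, Complex.mul_re, Complex.sub_re, Complex.natCast_re, Complex.conj_re, Complex.sub_im,
      Complex.natCast_im, sub_self, Complex.conj_im, zero_mul, sub_zero, Complex.zero_re] at h1
    simp only [Complex.add_im, Complex.mul_im, Complex.sub_re, Complex.natCast_re, Complex.conj_re, Complex.sub_im,
      Complex.natCast_im, sub_self, Complex.conj_im, zero_mul, add_zero, Complex.zero_im] at h2
    have h3 : (((i : ℕ) : ℝ) - ((j : ℕ) : ℝ)) + (((k : ℕ) : ℝ) - ((l : ℕ) : ℝ)) = 0 := by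
      apply mul_right_cancel₀ hr
      rw [zero_mul]
      linear_combination h1
    have h4 : -(((i : ℕ) : ℝ) - ((j : ℕ) : ℝ)) + (((k : ℕ) : ℝ) - ((l : ℕ) : ℝ)) = 0 := by
      apply mul_right_cancel₀ hi
      rw [zero_mul]
      linear_combination h2
    apply h.1
    have h5 : ((i : ℕ) : ℝ) = ((j : ℕ) : ℝ) := by linarith
    exact Fin.ext (by exact_mod_cast h5)

theorem vc_esymm (z : Fin (n + 1) → ℂ) (i : Fin (n + 1)) : vc z (Fin.rev i) =
    (-1) ^ ((i : ℕ) + 1) * MvPolynomial.eval z (MvPolynomial.esymm (Fin (n + 1)) ℂ ((i : ℕ) + 1)) := by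
  have h5 : (Multiset.map z (Finset.univ : Finset (Fin (n + 1))).val).card = n + 1 := by
    rw [Multiset.card_map]
    simp
  have h6 : n + 1 - ((Fin.rev i : Fin (n + 1)) : ℕ) = (i : ℕ) + 1 := by
    rw [Fin.val_rev]
    omega
  have h3 := Multiset.prod_X_sub_C_coeff (Multiset.map z Finset.univ.val) (k := ((Fin.rev i : Fin (n + 1)) : ℕ))
    (by rw [h5]; exact (Fin.rev i).2.le)
  have h4 : (Multiset.map (fun t => X - C t) (Multiset.map z Finset.univ.val)).prod = rp z := by
    rw [Multiset.map_map]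
    rfl
  rw [h4, h5, h6] at h3
  have h7 := MvPolynomial.aeval_esymm_eq_multiset_esymm (Fin (n + 1)) ℂ ((i : ℕ) + 1) z
  rw [MvPolynomial.aeval_eq_eval] at h7
  show (rp z).coeff ((Fin.rev i : Fin (n + 1)) : ℕ) = _
  rw [h3, ← h7]

theorem eval_aeval' (G : MvPolynomial (Fin (n + 1)) ℂ) (f : Fin (n + 1) → MvPolynomial (Fin (n + 1)) ℂ)
    (x : Fin (n + 1) → ℂ) :
    MvPolynomial.eval x (MvPolynomial.aeval f G) = MvPolynomial.eval (fun i => MvPolynomial.eval x (f i)) G := by
  have h2 : (MvPolynomial.eval x).comp (MvPolynomial.aeval f : MvPolynomial (Fin (n + 1)) ℂ →ₐ[ℂ] _).toRingHom =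
      MvPolynomial.eval (fun i => MvPolynomial.eval x (f i)) := by
    refine MvPolynomial.ringHom_ext (fun b => ?_) fun i => ?_
    · simp [MvPolynomial.algebraMap_eq]
    · simp
  exact congrArg (fun k => k G) h2

theorem key_eval (G S : MvPolynomial (Fin (n + 1)) ℂ)
    (hG : MvPolynomial.aeval (fun i : Fin (n + 1) => MvPolynomial.esymm (Fin (n + 1)) ℂ ((i : ℕ) + 1)) G = S)
    (z : Fin (n + 1) → ℂ) :
    MvPolynomial.eval (vc z) (MvPolynomial.aeval (fun i : Fin (n + 1) =>
      MvPolynomial.C ((-1) ^ ((i : ℕ) + 1)) * MvPolynomial.X (Fin.rev i)) G) = MvPolynomial.eval z S := by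
  subst hG
  rw [eval_aeval', eval_aeval']
  refine congrArg (fun f => MvPolynomial.eval f G) (funext fun i => ?_)
  rw [map_mul, MvPolynomial.eval_C, MvPolynomial.eval_X, vc_esymm, ← mul_assoc, ← pow_add, ← two_mul,
    Even.neg_one_pow (even_two_mul _), one_mul]

theorem exists_G (S : MvPolynomial (Fin (n + 1)) ℂ) (hS : S.IsSymmetric) : ∃ G : MvPolynomial (Fin (n + 1)) ℂ,
    MvPolynomial.aeval (fun i : Fin (n + 1) => MvPolynomial.esymm (Fin (n + 1)) ℂ ((i : ℕ) + 1)) G = S := by
  obtain ⟨G, hG⟩ := MvPolynomial.esymmAlgHom_surjective ℂ (σ := Fin (n + 1)) (n := n + 1) (by simp) ⟨S, hS⟩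
  refine ⟨G, ?_⟩
  rw [← MvPolynomial.esymmAlgHom_apply, hG]

/-- the polynomial in the coefficients -/
theorem exists_H (n : ℕ) {u : ℂ} (hr : u.re ≠ 0) (hi : u.im ≠ 0) : ∃ H : MvPolynomial (Fin (n + 1)) ℂ, H ≠ 0 ∧
    ∀ a : Fin (n + 1) → ℝ, (fun m => (a m : ℂ)) ∉ Un u n → MvPolynomial.eval (fun m => (a m : ℂ)) H = 0 := by
  have hu : u ≠ 0 := fun h => hr (by rw [h]; rfl)
  obtain ⟨G, hG⟩ := exists_G (Sy n u) (Sy_symm u)
  obtain ⟨H, key⟩ : ∃ H : MvPolynomial (Fin (n + 1)) ℂ, ∀ z : Fin (n + 1) → ℂ,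
      MvPolynomial.eval (vc z) H = MvPolynomial.eval z (Sy n u) := ⟨_, key_eval G _ hG⟩
  refine ⟨H, ?_, ?_⟩
  · intro h0
    have h1 := key (fun r : Fin (n + 1) => ((r : ℕ) : ℂ))
    rw [h0, map_zero] at h1
    exact Sy_ne hr hi h1.symm
  · intro a ha
    obtain ⟨z, hz⟩ := exists_roots (cp_monic (fun m => (a m : ℂ))) (cp_natDegree (fun m => (a m : ℂ)))
    have h1 : (fun m => (a m : ℂ)) = vc z := cp_inj (hz.trans (cp_vc z).symm)
    have h2 : ¬ Function.Injective fun r => (u⁻¹ * z r).re := fun h => ha (mem_Un_of_sep hu hz h)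
    rw [h1, key, Sy_eval]
    unfold Function.Injective at h2
    push Not at h2
    obtain ⟨i, j, hij, hne⟩ := h2
    -- the conjugates of the roots are roots
    have hconj : ∀ r, ∃ s, z s = conj (z r) := by
      intro r
      have h3 : (cp (fun m => (a m : ℂ))).eval (z r) = 0 := by
        rw [hz]
        unfold rp
        rw [eval_prod]
        exact Finset.prod_eq_zero (Finset.mem_univ r) (by simp)
      have h4 : (cp (fun m => (a m : ℂ))).eval (conj (z r)) = 0 := by
        have h5 := congrArg conj h3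
        rw [map_zero, ← Polynomial.eval_map_apply, map_cp] at h5
        have h6 : (fun m => conj ((a m : ℝ) : ℂ)) = fun m => ((a m : ℝ) : ℂ) := by
          funext m
          exact Complex.conj_ofReal _
        rw [h6] at h5
        exact h5
      rw [hz] at h4
      unfold rp at h4
      rw [eval_prod, Finset.prod_eq_zero_iff] at h4
      obtain ⟨s, _, h5⟩ := h4
      rw [eval_sub, eval_X, eval_C, sub_eq_zero] at h5
      exact ⟨s, h5.symm⟩
    have hre : (u⁻¹ * (z i - z j)).re = 0 := by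
      rw [mul_sub, Complex.sub_re, sub_eq_zero]
      exact hij
    by_cases hzz : z i = z j
    · refine Finset.prod_eq_zero (Finset.mem_univ ((i, j), (i, j))) ?_
      simp only
      rw [if_neg (by simp [hne]), hzz, sub_self]
      ring
    · obtain ⟨k, hk⟩ := hconj i
      obtain ⟨l, hl⟩ := hconj j
      have hkl : k ≠ l := by
        rintro rfl
        apply hzz
        have h5 : conj (z i) = conj (z j) := hk.symm.trans hl
        exact (starRingEnd ℂ).injective h5
      refine Finset.prod_eq_zero (Finset.mem_univ ((i, j), (k, l))) ?_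
      simp only
      rw [if_neg (by simp [hne, hkl]), hk, hl, ← map_sub]
      set w := z i - z j with hw
      have h6 : w = u * (u⁻¹ * w) := by rw [mul_inv_cancel_left₀ hu]
      set t := u⁻¹ * w with ht
      rw [h6, map_mul]
      have h7 : conj t = -t := by
        apply Complex.ext
        · rw [Complex.conj_re, Complex.neg_re, hre, neg_zero]
        · rw [Complex.conj_im, Complex.neg_im]
      rw [h7]
      ring

end Pool.Agent.N121.OH
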