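import Pool.Agent.N121.OH.Pol
import Pool.Agent.N121.OH.Count
import Pool.Agent.N121.OH.Null
import Pool.Agent.H450R2.Sp.Null
import Pool.Agent.Y890.SP.Omega

/-!
# Relations between the periods of almost all tuples of hyperelliptic curves, ordered by height
-/

set_option autoImplicit false
set_option linter.unusedSectionVars false

open Complex Set Filter Topology NumberField Matrix MeasureTheory

namespace Pool.Agent.N121.OH

open Pool.Agent.Y118.HP (qm bm aeval_int_map)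
open Pool.Agent.Y890.MV
open Pool.Agent.Y890.SM
open Pool.Agent.Y124 (Cov)

section cov

variable {X : Type} [Fintype X] [DecidableEq X]

open Classical in
theorem few_cov (w : X → ℕ) (hw : ∀ i, 1 ≤ w i) {D m : ℕ} {S : Set (X → ℂ)} (h : Cov D m S) {T : ℕ} (hT : 1 ≤ T) :
    (((BX w T).filter fun a => cx (sc w T a) ∈ S).card : ℝ) ≤ m * (D / T) * (BX w T).card := by
  obtain ⟨Φ, h1, h2, h3⟩ := h
  have hsub : ((BX w T).filter fun a => cx (sc w T a) ∈ S) ⊆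
      Φ.biUnion fun P => (BX w T).filter fun a => MvPolynomial.eval (cx (sc w T a)) P = 0 := by
    intro a ha
    rw [Finset.mem_filter] at ha
    obtain ⟨P, hP, hP0⟩ := h3 _ ha.2
    exact Finset.mem_biUnion.2 ⟨P, hP, Finset.mem_filter.2 ⟨ha.1, hP0⟩⟩
  have h4 : (((BX w T).filter fun a => cx (sc w T a) ∈ S).card : ℝ) ≤
      ∑ P ∈ Φ, (((BX w T).filter fun a => MvPolynomial.eval (cx (sc w T a)) P = 0).card : ℝ) := by
    exact_mod_cast (Finset.card_le_card hsub).trans Finset.card_biUnion_le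
  refine h4.trans ((Finset.sum_le_sum fun P hP => few_on w hw (h2 P hP).1 (h2 P hP).2 hT).trans ?_)
  rw [Finset.sum_const, nsmul_eq_mul, ← mul_assoc]
  have h5 : (Φ.card : ℝ) ≤ m := by exact_mod_cast h1
  gcongr

end cov

variable {ι : Type} {n : ι → ℕ}

theorem wt_pos (q : Σ i, Fin (n i + 1)) : 1 ≤ wt n q := by
  unfold wt
  have := q.2.2
  omega

/-- the scaled rational point -/
def xq (n : ι → ℕ) (T : ℕ) (a : (Σ i, Fin (n i + 1)) → ℤ) (q : Σ i, Fin (n i + 1)) : ℚ :=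
  (a q : ℚ) / ((sd T : ℚ) ^ 2) ^ wt n q

theorem xq_cx (n : ι → ℕ) (T : ℕ) (a : (Σ i, Fin (n i + 1)) → ℤ) :
    (fun q => (algebraMap ℚ ℂ) (xq n T a q)) = cx (sc (wt n) T a) := by
  funext q
  unfold xq cx sc
  simp

variable [Fintype ι] [DecidableEq ι]

/-- a bound for the weights -/
def Mx (n : ι → ℕ) : ℕ := ∑ i, (n i + 1)

theorem wt_le (q : Σ i, Fin (n i + 1)) : wt n q ≤ Mx n := by
  unfold wt Mx
  have h1 : n q.1 + 1 ≤ ∑ i, (n i + 1) :=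
    Finset.single_le_sum (f := fun i => n i + 1) (fun _ _ => Nat.zero_le _) (Finset.mem_univ q.1)
  omega

theorem Mx_pos [Nonempty ι] : 1 ≤ Mx n := by
  obtain ⟨i⟩ := ‹Nonempty ι›
  have h1 := wt_le (n := n) ⟨i, 0⟩
  have h2 := wt_pos (n := n) ⟨i, 0⟩
  omega

/-- the bound for the heights -/
noncomputable def Tp (n : ι → ℕ) (T : ℕ) : ℝ := ((sd T : ℝ) ^ 2) ^ Mx n

theorem sd_one (T : ℕ) : (1 : ℝ) ≤ sd T := by exact_mod_cast sd_pos T

theorem sd2_one (T : ℕ) : (1 : ℝ) ≤ (sd T : ℝ) ^ 2 := one_le_pow₀ (sd_one T)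

theorem lt_sd' (T : ℕ) : (T : ℝ) < (sd T : ℝ) ^ 2 := by exact_mod_cast lt_sd T

theorem sd2_le_Tp [Nonempty ι] (T : ℕ) : (sd T : ℝ) ^ 2 ≤ Tp n T := by
  unfold Tp
  calc (sd T : ℝ) ^ 2 = ((sd T : ℝ) ^ 2) ^ 1 := (pow_one _).symm
    _ ≤ _ := pow_le_pow_right₀ (sd2_one T) Mx_pos

theorem house_int {T : ℝ} (z : ℤ) (h : |(z : ℝ)| ≤ T) : house (((z : 𝓞 ℚ) : ℚ)) ≤ T := by
  refine Y120.house_le ℚ ((abs_nonneg _).trans h) fun φ => ?_
  have h1 : φ (((z : 𝓞 ℚ) : ℚ)) = (z : ℂ) := by simp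
  rw [h1, ← Complex.ofReal_intCast, Complex.norm_real, Real.norm_eq_abs]
  exact h

theorem xq_ht {T : ℕ} {a : (Σ i, Fin (n i + 1)) → ℤ} (ha : a ∈ BX (wt n) T) (q : Σ i, Fin (n i + 1)) :
    Y120.HtLe ℚ (Tp n T) (xq n T a q) := by
  have h1 : |(a q : ℝ)| ≤ (T : ℝ) ^ wt n q := by exact_mod_cast mem_BX.1 ha q
  have h2 : ((sd T : ℝ) ^ 2) ^ wt n q ≤ Tp n T := pow_le_pow_right₀ (sd2_one T) (wt_le q)
  have h3 : (T : ℝ) ^ wt n q ≤ ((sd T : ℝ) ^ 2) ^ wt n q := pow_le_pow_left₀ (Nat.cast_nonneg _) (lt_sd' T).le _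
  refine ⟨((a q : ℤ) : 𝓞 ℚ), (((((sd T : ℤ) ^ 2) ^ wt n q : ℤ)) : 𝓞 ℚ), ?_, ?_, ?_, ?_⟩
  · have h4 : (((sd T : ℤ) ^ 2) ^ wt n q : ℤ) ≠ 0 := by
      have h5 := sd_pos T
      positivity
    exact_mod_cast h4
  · exact house_int _ (h1.trans (h3.trans h2))
  · refine house_int _ ?_
    rw [abs_of_nonneg (by positivity)]
    push_cast
    exact h2
  · unfold xq
    simp

/-- the relations at a tuple of curves -/
def GoodA (n : ι → ℕ) (k : ℕ) (H : ℝ) (ξ : Fin k → ℂ) (a : (Σ i, Fin (n i + 1)) → ℤ) : Prop :=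
  ∃ e : ∀ i, Fin (n i + 1) → ℂ, (∀ i, cp (fun m => ((a ⟨i, m⟩ : ℤ) : ℂ)) = rp (e i) ∧
      ∀ r s, r < s → (e i r).re + (e i r).im < (e i s).re + (e i s).im) ∧
    (PM n e, tpi) ∈ TorC n (fun i => rp (e i)) ∧
    (∀ (K : Type) [Field K] [NumberField K] (φ : K →+* ℂ) (P : MvPolynomial (Option (Ix n)) (𝓞 K)),
      Module.finrank ℚ K ≤ k → P.totalDegree ≤ k →
      (∀ s (ψ : K →+* ℂ), ‖ψ (algebraMap (𝓞 K) K (P.coeff s))‖ ≤ H) →
      MvPolynomial.eval (ptS (PM n e) tpi) (P.map (φ.comp (algebraMap (𝓞 K) K))) = 0 →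
      ∀ x ∈ TorC n (fun i => rp (e i)), MvPolynomial.eval (ptS x.1 x.2) (P.map (φ.comp (algebraMap (𝓞 K) K))) = 0) ∧
    ∀ P : Fin k → MvPolynomial (Ix n) ℤ, (∀ a, (P a).totalDegree ≤ k) → (∀ a s, |(((P a).coeff s : ℤ) : ℝ)| ≤ H) →
      ∑ a, ξ a * MvPolynomial.aeval (fun q : Ix n => PM n e q.1 q.2.1 q.2.2) (P a) = 0 →
      ∀ Y, (Y, tpi) ∈ TorC n (fun i => rp (e i)) →
        ∑ a, ξ a * MvPolynomial.aeval (fun q : Ix n => Y q.1 q.2.1 q.2.2) (P a) = 0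

theorem eI_order {s : ℝ} (hs : 0 < s) {x : (Σ i, Fin (n i + 1)) → ℂ} {i : ι} (hx : pj x i ∈ Un (1 + I) (n i))
    (r t : Fin (n i + 1)) (hrt : r < t) :
    (eI n s x i r).re + (eI n s x i r).im < (eI n s x i t).re + (eI n s x i t).im := by
  have h1 := eI_ord hs hx r t hrt
  have h2 : ∀ z : ℂ, ((1 + I) * z).re + ((1 + I) * z).im = 2 * z.re := by
    intro z
    simp
    ring
  unfold eI
  rw [h2, h2]
  linarith

/-- outside the exceptional sets -/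
theorem good_of (hn : ∀ i, Even (n i)) [Nonempty ι] (k : ℕ) : ∃ C : ℕ, ∀ T : ℕ, C ≤ T → ∀ (ξ : Fin k → ℂ) (Lc : Set ((Σ i, Fin (n i + 1)) → ℂ)),
    Lc ⊆ (F0 n hn).U → ∀ a ∈ BX (wt n) T, cx (sc (wt n) T a) ∈ Lc →
    xq n T a ∉ ExcT k (F0 n hn).f (F0 n hn).Tor Lc ℚ (algebraMap ℚ ℂ) ξ ((exL n k + k : ℕ) : ℝ) (Tp n T) →
    xq n T a ∉ ExcT (k * k) (F0 n hn).f (F0 n hn).Tor Lc ℚ (algebraMap ℚ ℂ)
      (fun a : Fin (k * k + 1) => tpi ^ (a : ℕ)) ((exL n (k * k) + (k * k + 1) : ℕ) : ℝ) (Tp n T) →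
    GoodA n k ((T : ℝ) ^ k) ξ a := by
  classical
  obtain ⟨C, hC⟩ := exists_M (σ := Option (Ix n)) k
  refine ⟨max 1 ⌈C⌉₊, fun T hT ξ Lc hL a ha haL hE1 hE2 => ?_⟩
  have hT1 : 1 ≤ T := (le_max_left _ _).trans hT
  have hTC : C ≤ T := (Nat.le_ceil C).trans (by exact_mod_cast (le_max_right _ _).trans hT)
  have hS : 0 < sd T := sd_pos T
  have hS0 : (0 : ℝ) < (sd T : ℝ) := by exact_mod_cast hS
  set x : (Σ i, Fin (n i + 1)) → ℂ := fun q => (algebraMap ℚ ℂ) (xq n T a q) with hx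
  have hxL : x ∈ Lc := by
    rw [hx, xq_cx]
    exact haL
  have hxU : x ∈ USig (fun i => Un (1 + I) (n i)) := hL hxL
  have hsize : ∀ (L m : ℕ) (y : ℝ), 0 ≤ y → y ≤ (T : ℝ) ^ m →
      (sd T : ℝ) ^ (2 * L) * y ≤ Tp n T ^ ((L + m : ℕ) : ℝ) := by
    intro L m y hy hym
    rw [Real.rpow_natCast, pow_add, pow_mul]
    have h1 : ((sd T : ℝ) ^ 2) ^ L ≤ Tp n T ^ L := pow_le_pow_left₀ (by positivity) (sd2_le_Tp T) _
    have h2 : (T : ℝ) ^ m ≤ Tp n T ^ m :=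
      pow_le_pow_left₀ (Nat.cast_nonneg _) ((lt_sd' T).le.trans (sd2_le_Tp T)) _
    exact mul_le_mul h1 (hym.trans h2) hy (le_trans (by positivity) h1)
  have hcoef : ∀ i (m : Fin (n i + 1)), ((a ⟨i, m⟩ : ℤ) : ℂ) =
      (((sd T : ℝ) ^ 2 : ℝ) : ℂ) ^ (n i + 1 - (m : ℕ)) * x ⟨i, m⟩ := by
    intro i m
    have h1 : ((sd T : ℕ) : ℂ) ≠ 0 := by exact_mod_cast hS.ne'
    rw [hx]
    simp only [xq]
    rw [map_div₀, map_pow, map_pow, map_natCast, eq_ratCast]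
    push_cast
    have h2 : wt n ⟨i, m⟩ = n i + 1 - (m : ℕ) := rfl
    rw [h2]
    have h3 : (((sd T : ℕ) : ℂ) ^ 2) ^ (n i + 1 - (m : ℕ)) ≠ 0 := pow_ne_zero _ (pow_ne_zero _ h1)
    field_simp
  have hcp : ∀ i, cp (fun m => ((a ⟨i, m⟩ : ℤ) : ℂ)) = rp (eI n (sd T) x i) := fun i =>
    eI_cp hS0 (hxU i) (hcoef i)
  have hmem := PM_mem hn hS0 hxU
  refine ⟨eI n (sd T) x, fun i => ⟨hcp i, eI_order hS0 (hxU i)⟩, hmem, ?_, ?_⟩
  · intro K _ _ φ P hK hPd hPc hP0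
    obtain ⟨M, hM, hMd, hMc⟩ := hC T hTC K hK P hPd hPc
    -- the norm vanishes at the period point
    have hM0 : MvPolynomial.aeval (ptS (PM n (eI n (sd T) x)) tpi) M = 0 := by
      rw [aeval_int_map, hM, map_prod]
      refine Finset.prod_eq_zero (Finset.mem_univ φ) ?_
      rw [MvPolynomial.aeval_eq_eval]
      exact hP0
    rw [arv_abs M hMd] at hM0
    have hv := good_full hn hS (xq_ht ha) hxL hL hE2
      (fun l (b : Fin (k * k + 1)) => M.coeff (osl l b)) (fun l b => hsize _ _ _ (abs_nonneg _) (hMc _)) hM0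
    -- the trivialisation
    have hX : ∀ i, ∃ X0 : Matrix (Fin (n i)) (Fin (n i)) ℚ, X0.map (algebraMap ℚ ℂ) *
        ((-1 / 2 : ℂ) • qm (n i) (rp (eI n (sd T) x i))) * (X0.map (algebraMap ℚ ℂ)).transpose =
          Pool.Agent.Y118.HP.jm ℂ (n i) := fun i =>
      exists_X0S (hn i) (a := fun m => ((a ⟨i, m⟩ : ℤ) : ℚ)) (by
        rw [← hcp i]
        congr 1) hmem.1 (hmem.2 i)
    choose X0 hX0 using hX
    have hdes := descent hn P φ hX0 (fun z hz => by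
      rw [← hM, ← aeval_int_map, arv_abs M hMd]
      exact hv z (torC_iff.2 hz))
    intro z hz
    have h1 := hdes z (torC_iff.1 hz)
    rw [MvPolynomial.aeval_eq_eval] at h1
    exact h1
  · intro P hPd hPc hP0 Y hY
    rw [arv_rel P hPd] at hP0 ⊢
    exact (good_arr hn hS (xq_ht ha) hxL hL hE1 (fun l b => (P b).coeff (fsl l))
      (fun l b => hsize _ _ _ (abs_nonneg _) (hPc _ _)) hP0).1 Y hY

end Pool.Agent.N121.OH
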