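import Pool.Agent.N121.OH.IrrA

/-!
# Descent: from the norm of a polynomial to the polynomial
-/

set_option autoImplicit false
set_option linter.unusedSectionVars false

open Matrix Polynomial NumberField

namespace Pool.Agent.N121.OH

open Pool.Agent.Y118.HP (jm SpS jm_det jm_map SpS_map SpS_mul SpS_inv SpS_one exists_path exists_norm aeval_int_map)
open Pool.Agent.Y890.SM (Ix)

variable {ι : Type} {n : ι → ℕ}

/-- the value at a rational point -/
theorem phi_val {K : Type} [Field K] [NumberField K] (P : MvPolynomial (Option (Ix n)) (𝓞 K))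
    (X0 : ∀ i, Matrix (Fin (n i)) (Fin (n i)) ℚ) (ρ : ℚ) (g : ∀ i, Matrix (Fin (n i)) (Fin (n i)) ℚ) (χ : K →+* ℂ) :
    MvPolynomial.aeval (PhiS (fun i => (X0 i).map (algebraMap ℚ ℂ)) (ρ : ℂ) (fun i => (g i).map (algebraMap ℚ ℂ)))
      (P.map (χ.comp (algebraMap (𝓞 K) K))) =
    χ (MvPolynomial.eval (fun o => algebraMap ℚ K (PhiS X0 ρ g o)) (P.map (algebraMap (𝓞 K) K))) := by
  rw [MvPolynomial.eval_map, MvPolynomial.hom_eval₂, MvPolynomial.aeval_def, MvPolynomial.eval₂_map]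
  congr 1
  funext o
  have h3 := PhiS_map (algebraMap ℚ ℂ) X0 ρ g o
  have h4 : χ (algebraMap ℚ K (PhiS X0 ρ g o)) = algebraMap ℚ ℂ (PhiS X0 ρ g o) := by simp
  show PhiS (fun i => (X0 i).map (algebraMap ℚ ℂ)) (ρ : ℂ) (fun i => (g i).map (algebraMap ℚ ℂ)) o =
    χ (algebraMap ℚ K (PhiS X0 ρ g o))
  rw [h4, h3]
  simp

variable [Fintype ι] [DecidableEq ι]

/-- **Descent**: from the norm of a polynomial to the polynomial. -/
theorem descent (hn : ∀ i, Even (n i)) {K : Type} [Field K] [NumberField K] (P : MvPolynomial (Option (Ix n)) (𝓞 K))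
    (φ : K →+* ℂ) {X0 : ∀ i, Matrix (Fin (n i)) (Fin (n i)) ℚ} {Q : ∀ i, Matrix (Fin (n i)) (Fin (n i)) ℂ}
    (hX0 : ∀ i, (X0 i).map (algebraMap ℚ ℂ) * Q i * ((X0 i).map (algebraMap ℚ ℂ)).transpose = jm ℂ (n i))
    (hM : ∀ z ∈ TorS Q, MvPolynomial.aeval (ptS z.1 z.2)
      (∏ ψ : K →+* ℂ, P.map (ψ.comp (algebraMap (𝓞 K) K))) = 0) :
    ∀ z ∈ TorS Q, MvPolynomial.aeval (ptS z.1 z.2) (P.map (φ.comp (algebraMap (𝓞 K) K))) = 0 := by
  classical
  intro x hx
  obtain ⟨ψ, -, hψ⟩ := irrS_prod hn (fun j => (X0 j).map (algebraMap ℚ ℂ)) Finset.univ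
    (fun ψ : K →+* ℂ => P.map (ψ.comp (algebraMap (𝓞 K) K))) (fun μ g hμ hg => by
      have h1 := PhiS_mem hX0 hμ hg
      have h2 := hM _ h1
      simp only at h2
      have h3 : PhiS (fun j => (X0 j).map (algebraMap ℚ ℂ)) μ g =
        ptS (fun i => μ • (g i * (X0 i).map (algebraMap ℚ ℂ))) (μ ^ 2) := rfl
      rw [h3]
      exact h2)
  have hdense := denseS_tor hn (fun j => (X0 j).map (algebraMap ℚ ℂ)) (P.map (φ.comp (algebraMap (𝓞 K) K)))
    (fun ρ g hρ hg => by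
      have h1 := hψ (ρ : ℂ) (fun i => (g i).map (algebraMap ℚ ℂ)) (by exact_mod_cast hρ) (fun j => SpS_map _ (hg j))
      rw [phi_val] at h1
      rw [phi_val, (map_eq_zero ψ).1 h1, map_zero])
  obtain ⟨μ, g, -, hg, hpt⟩ := exists_PhiS hn hX0 hx
  rw [hpt]
  exact hdense μ g hg

end Pool.Agent.N121.OH
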