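import Pool.Agent.N121.OH.Arr
import Pool.Agent.N121.OH.IrrB

/-!
# From polynomials over number fields to arrays of integers
-/

set_option autoImplicit false
set_option linter.unusedSectionVars false

open Complex Set Filter Topology NumberField Matrix

namespace Pool.Agent.N121.OH

open Pool.Agent.Y118.HP (jm jm_apply jm_det jm_transpose jm_diag jm_map qm bm bm_eq exists_norm aeval_int_map l1 l1_eq l1_prod_le
  coeff_le_l1 l1_le_card totalDegree_map_le totalDegree_map_inj)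
open Pool.Agent.Y890.MV
open Pool.Agent.Y890.SM

variable {ι : Type} {n : ι → ℕ}

theorem torC_iff {G : ι → Polynomial ℂ} {p : (∀ i, Matrix (Fin (n i)) (Fin (n i)) ℂ) × ℂ} :
    p ∈ TorC n G ↔ p ∈ TorS (fun i => (-1 / 2 : ℂ) • qm (n i) (G i)) := by
  unfold TorC TorS
  simp only [Set.mem_ofPred_eq]
  refine and_congr_right fun _ => forall_congr' fun i => ?_
  rw [Matrix.mul_smul, Matrix.smul_mul, bm_eq]
  constructor
  · intro h
    rw [h, smul_smul, smul_smul]
    congr 1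
    ring
  · intro h
    calc p.1 i * qm (n i) (G i) * (p.1 i).transpose =
        (-2 : ℂ) • ((-1 / 2 : ℂ) • (p.1 i * qm (n i) (G i) * (p.1 i).transpose)) := by
          rw [smul_smul]; norm_num
      _ = p.2 • (-2 : ℂ) • jm ℂ (n i) := by rw [h, smul_comm]

theorem PM_mem (hn : ∀ i, Even (n i)) {s : ℝ} (hs : 0 < s) {x : (Σ i, Fin (n i + 1)) → ℂ}
    (hx : x ∈ USig (fun i => Un (1 + I) (n i))) : (PM n (eI n s x), tpi) ∈ TorC n (fun i => rp (eI n s x i)) := by
  rw [rs_PM hs hx, rs_tor hs hx]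
  refine ⟨tpi_ne, fun i => ?_⟩
  have h1 := PE_riemann (hn i) w0_sq w0_ne (rt_mem (hx i))
  rw [← rt_eq (hx i)] at h1
  exact h1

/-- rational trivialisation -/
theorem exists_X0S {m : ℕ} (hm : Even m) {a : Fin (m + 1) → ℚ} {e : Fin (m + 1) → ℂ}
    (hae : cp (fun k => (algebraMap ℚ ℂ) (a k)) = rp e) {P : Matrix (Fin m) (Fin m) ℂ} {μ : ℂ} (hμ : μ ≠ 0)
    (hP : P * qm m (rp e) * P.transpose = μ • (bm ℚ m).map (algebraMap ℚ ℂ)) :
    ∃ X0 : Matrix (Fin m) (Fin m) ℚ, X0.map (algebraMap ℚ ℂ) * ((-1 / 2 : ℂ) • qm m (rp e)) *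
      (X0.map (algebraMap ℚ ℂ)).transpose = jm ℂ m := by
  set Q : Matrix (Fin m) (Fin m) ℚ := (-1 / 2 : ℚ) • qm m (cp a) with hQ
  have hQm : Q.map (algebraMap ℚ ℂ) = (-1 / 2 : ℂ) • qm m (rp e) := by
    rw [← hae, ← map_cp]
    ext i j
    rw [Matrix.map_apply, hQ, Matrix.smul_apply, Matrix.smul_apply]
    unfold qm
    rw [Matrix.of_apply, Matrix.of_apply, Polynomial.coeff_map]
    simp
  have hQT : Q.transpose = -Q := by
    ext i j
    rw [Matrix.transpose_apply, Matrix.neg_apply, hQ, Matrix.smul_apply, Matrix.smul_apply]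
    unfold qm
    rw [Matrix.of_apply, Matrix.of_apply, show (j : ℕ) + (i : ℕ) + 2 = (i : ℕ) + (j : ℕ) + 2 by omega]
    simp only [smul_eq_mul]
    ring
  have hQd : ∀ i, Q i i = 0 := by
    intro i
    rw [hQ, Matrix.smul_apply]
    unfold qm
    rw [Matrix.of_apply, sub_self, zero_div, zero_mul, smul_zero]
  have hdet : Q.det ≠ 0 := by
    intro h0
    have h1 : (Q.map (algebraMap ℚ ℂ)).det = 0 := by
      have h2 : (Q.map (algebraMap ℚ ℂ)).det = algebraMap ℚ ℂ Q.det := (RingHom.map_det (algebraMap ℚ ℂ) Q).symm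
      rw [h2, h0, map_zero]
    rw [hQm, Matrix.det_smul] at h1
    have h3 : (qm m (rp e)).det = 0 := (mul_eq_zero.1 h1).resolve_left (pow_ne_zero _ (by norm_num))
    have h4 := congrArg Matrix.det hP
    rw [Matrix.det_mul, Matrix.det_mul, h3, mul_zero, zero_mul, bm_eq, smul_smul, Matrix.det_smul] at h4
    exact mul_ne_zero (pow_ne_zero _ (mul_ne_zero hμ (by norm_num))) (jm_det hm) h4.symm
  obtain ⟨U, -, hU⟩ := Pool.Agent.Y122.HPDar.darboux Q (jm ℚ m) hQT hQd hdet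
    jm_transpose (fun i => jm_diag i) (jm_det hm)
  refine ⟨U, ?_⟩
  rw [← hQm, ← Matrix.transpose_map, ← Matrix.map_mul, ← Matrix.map_mul, hU, jm_map]

section arrays

variable {σ : Type} [Fintype σ] [DecidableEq σ]

/-- a tuple as an exponent -/
noncomputable def fsl {d : ℕ} (l : σ → Fin (d + 1)) : σ →₀ ℕ := Finsupp.equivFunOnFinite.symm fun y => (l y : ℕ)

theorem fsl_apply {d : ℕ} (l : σ → Fin (d + 1)) (y : σ) : fsl l y = (l y : ℕ) := rfl

theorem fsl_inj {d : ℕ} : Function.Injective (fsl : (σ → Fin (d + 1)) → (σ →₀ ℕ)) := by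
  intro l l' h
  funext y
  exact Fin.ext (by rw [← fsl_apply, ← fsl_apply, h])

theorem le_of_mem {R : Type} [CommSemiring R] {P : MvPolynomial σ R} {d : ℕ} (hd : P.totalDegree ≤ d) {s : σ →₀ ℕ}
    (hs : s ∈ P.support) (y : σ) : s y ≤ d := by
  have h2 := MvPolynomial.le_totalDegree hs
  have h3 : (s.sum fun _ e => e) = ∑ o, s o := Finsupp.sum_fintype _ _ (fun _ => rfl)
  have h4 : s y ≤ ∑ o, s o := Finset.single_le_sum (f := fun o => s o) (fun _ _ => Nat.zero_le _) (Finset.mem_univ y)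
  omega

theorem sum_support {R : Type} [CommSemiring R] {P : MvPolynomial σ R} {d : ℕ} (hd : P.totalDegree ≤ d)
    (g : (σ →₀ ℕ) → R → ℂ) (hg : ∀ s, g s 0 = 0) :
    ∑ s ∈ P.support, g s (P.coeff s) = ∑ l : σ → Fin (d + 1), g (fsl l) (P.coeff (fsl l)) := by
  classical
  rw [← Finset.sum_image (s := (Finset.univ : Finset (σ → Fin (d + 1)))) (g := fsl)
    (f := fun s => g s (P.coeff s)) (fun a _ b _ h => fsl_inj h)]
  refine Finset.sum_subset ?_ ?_
  · intro s hs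
    refine Finset.mem_image.2 ⟨fun y => ⟨s y, Nat.lt_succ_of_le (le_of_mem hd hs y)⟩, Finset.mem_univ _, ?_⟩
    ext y
    rfl
  · intro s _ hs
    rw [MvPolynomial.notMem_support_iff.1 hs, hg]

end arrays

variable [Fintype ι] [DecidableEq ι]

/-- the array of a polynomial in the entries of the matrices -/
theorem arv_rel {k : ℕ} (P : Fin k → MvPolynomial (Ix n) ℤ) (hd : ∀ a, (P a).totalDegree ≤ k) (ξ : Fin k → ℂ)
    (Y : ∀ i, Matrix (Fin (n i)) (Fin (n i)) ℂ) :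
    ∑ a, ξ a * MvPolynomial.aeval (fun q : Ix n => Y q.1 q.2.1 q.2.2) (P a) =
      arv (k := k) (fun l a => (((P a).coeff (fsl l) : ℤ) : ℂ)) ξ Y := by
  unfold arv
  have h1 : ∀ a, MvPolynomial.aeval (fun q : Ix n => Y q.1 q.2.1 q.2.2) (P a) =
      ∑ l : Ix n → Fin (k + 1), (((P a).coeff (fsl l) : ℤ) : ℂ) * ∏ y : Ix n, (Y y.1 y.2.1 y.2.2) ^ (l y : ℕ) := by
    intro a
    rw [MvPolynomial.aeval_def, MvPolynomial.eval₂_eq']
    have h2 := sum_support (hd a) (fun s r => (r : ℂ) * ∏ y : Ix n, (Y y.1 y.2.1 y.2.2) ^ (s y)) (fun s => by simp)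
    simp only [algebraMap_int_eq, eq_intCast]
    exact h2
  simp only [h1, Finset.mul_sum, Finset.sum_mul]
  rw [Finset.sum_comm]
  refine Finset.sum_congr rfl fun l _ => Finset.sum_congr rfl fun a _ => ?_
  ring

/-- the exponents with a power of the multiplier -/
noncomputable def osl {d : ℕ} (l : Ix n → Fin (d + 1)) (a : Fin (d + 1)) : Option (Ix n) →₀ ℕ :=
  fsl (fun o : Option (Ix n) => o.elim a l)

/-- the array of a polynomial in the entries of the matrices and the multiplier -/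
theorem arv_abs {d : ℕ} (M : MvPolynomial (Option (Ix n)) ℤ) (hd : M.totalDegree ≤ d)
    (Y : ∀ i, Matrix (Fin (n i)) (Fin (n i)) ℂ) (μ : ℂ) :
    MvPolynomial.aeval (ptS Y μ) M =
      arv (k := d) (fun l (a : Fin (d + 1)) => ((M.coeff (osl l a) : ℤ) : ℂ)) (fun a => μ ^ (a : ℕ)) Y := by
  unfold arv
  rw [MvPolynomial.aeval_def, MvPolynomial.eval₂_eq']
  have h2 := sum_support hd (fun s r => (r : ℂ) * ∏ o : Option (Ix n), (ptS Y μ o) ^ (s o)) (fun s => by simp)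
  simp only [algebraMap_int_eq, eq_intCast]
  refine h2.trans ?_
  -- tuples over `Option`
  set E : (Option (Ix n) → Fin (d + 1)) ≃ (Ix n → Fin (d + 1)) × Fin (d + 1) :=
    { toFun := fun f => (fun y => f (some y), f none)
      invFun := fun p o => o.elim p.2 p.1
      left_inv := fun f => by
        funext o
        cases o <;> rfl
      right_inv := fun p => rfl } with hE
  rw [← Equiv.sum_comp E.symm, Fintype.sum_prod_type]
  refine Finset.sum_congr rfl fun l _ => ?_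
  rw [Finset.sum_mul]
  refine Finset.sum_congr rfl fun a _ => ?_
  have h3 : E.symm (l, a) = fun o : Option (Ix n) => o.elim a l := rfl
  rw [h3, Fintype.prod_option]
  show ((M.coeff (osl l a) : ℤ) : ℂ) * (μ ^ (a : ℕ) * ∏ y : Ix n, (Y y.1 y.2.1 y.2.2) ^ (l y : ℕ)) = _
  ring

/-- the norm of a polynomial: degree and size -/
theorem exists_M {σ : Type} [Fintype σ] [DecidableEq σ] (k : ℕ) : ∃ C : ℝ, ∀ T : ℝ, C ≤ T → ∀ (K : Type) [Field K]
    [NumberField K], Module.finrank ℚ K ≤ k → ∀ P : MvPolynomial σ (𝓞 K), P.totalDegree ≤ k →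
      (∀ s (ψ : K →+* ℂ), ‖ψ (algebraMap (𝓞 K) K (P.coeff s))‖ ≤ T ^ k) →
      ∃ M : MvPolynomial σ ℤ, M.map (Int.castRingHom ℂ) = ∏ ψ : K →+* ℂ, P.map (ψ.comp (algebraMap (𝓞 K) K)) ∧
        M.totalDegree ≤ k * k ∧ ∀ s, |((M.coeff s : ℤ) : ℝ)| ≤ T ^ (k * k + 1) := by
  classical
  set 𝒮 := (Finsupp.finite_of_degree_le (σ := σ) k).toFinset with h𝒮
  have hcard1 : (1 : ℝ) ≤ 𝒮.card := by
    have : 0 < 𝒮.card := Finset.card_pos.2 ⟨0, by rw [h𝒮, Set.Finite.mem_toFinset]; simp⟩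
    exact_mod_cast this
  refine ⟨(𝒮.card : ℝ) ^ k, fun T hT K _ _ hK P hPd hPc => ?_⟩
  have hT1 : 1 ≤ T := (one_le_pow₀ hcard1).trans hT
  have hTk : 1 ≤ T ^ k := one_le_pow₀ hT1
  set Pe : (K →+* ℂ) → MvPolynomial σ ℂ := fun ψ => P.map (ψ.comp (algebraMap (𝓞 K) K)) with hPe
  have hPed : ∀ ψ, (Pe ψ).totalDegree ≤ k := fun ψ => (totalDegree_map_le _ P).trans hPd
  have hPes : ∀ ψ, (Pe ψ).support ⊆ 𝒮 := by
    intro ψ s hs
    rw [h𝒮, Set.Finite.mem_toFinset]
    have h1 := MvPolynomial.le_totalDegree hs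
    have h2 : (s.sum fun _ e => e) = s.degree := rfl
    have h3 := hPed ψ
    show s.degree ≤ k
    omega
  have hPel : ∀ ψ, l1 (Pe ψ) ≤ 𝒮.card * T ^ k := fun ψ => l1_le_card (hPes ψ) fun s => by
    rw [hPe, MvPolynomial.coeff_map]
    exact hPc s ψ
  obtain ⟨M, hM⟩ := exists_norm K P
  have hcardE : Fintype.card (K →+* ℂ) ≤ k := by rw [NumberField.Embeddings.card]; exact hK
  refine ⟨M, hM, ?_, ?_⟩
  · rw [← totalDegree_map_inj (φ := Int.castRingHom ℂ) (by exact Int.cast_injective) M, hM]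
    refine (MvPolynomial.totalDegree_finsetProd _ _).trans ?_
    refine (Finset.sum_le_sum fun ψ _ => hPed ψ).trans ?_
    rw [Finset.sum_const, Finset.card_univ, smul_eq_mul]
    exact Nat.mul_le_mul_right _ hcardE
  · intro s
    have h1 : ‖(MvPolynomial.map (Int.castRingHom ℂ) M).coeff s‖ ≤ l1 (∏ ψ : K →+* ℂ, Pe ψ) := by
      rw [hM]; exact coeff_le_l1 _ _
    rw [MvPolynomial.coeff_map] at h1
    have h2 : ‖(Int.castRingHom ℂ) (M.coeff s)‖ = |((M.coeff s : ℤ) : ℝ)| := by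
      rw [eq_intCast, ← Complex.ofReal_intCast, Complex.norm_real, Real.norm_eq_abs]
    rw [h2] at h1
    refine h1.trans ((l1_prod_le _ _ fun ψ _ => hPel ψ).trans ?_)
    rw [Finset.card_univ]
    have h3 : 1 ≤ 𝒮.card * T ^ k := one_le_mul_of_one_le_of_one_le hcard1 hTk
    calc (𝒮.card * T ^ k) ^ Fintype.card (K →+* ℂ) ≤ (𝒮.card * T ^ k) ^ k := pow_le_pow_right₀ h3 hcardE
      _ = (𝒮.card : ℝ) ^ k * T ^ (k * k) := by rw [mul_pow, ← pow_mul]
      _ ≤ T * T ^ (k * k) := mul_le_mul_of_nonneg_right hT (by positivity)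
      _ = T ^ (k * k + 1) := by ring

end Pool.Agent.N121.OH
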