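import Pool.Agent.Y118.HP.Main2
import Pool.Agent.Y890.SM.Fam
import Pool.Agent.Y890.HE.Full

/-!
# Geometry of the torsor of a product of curves of different genera: irreducibility, density, descent
(adapted from `Y118.HP.Tor`, `Y118.HP.Main2`)
-/

set_option autoImplicit false
set_option linter.unusedSectionVars false

open Matrix Polynomial NumberField

namespace Pool.Agent.N121.OH

open Pool.Agent.Y118.HP (jm SpS jm_det jm_map SpS_map SpS_mul SpS_inv SpS_one exists_path exists_norm aeval_int_map)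
open Pool.Agent.Y890.HE (dense_prod)
open Pool.Agent.Y890.SM (Ix)

variable {ι : Type} {n : ι → ℕ}

/-- the point -/
def ptS {K : Type*} (X : ∀ i, Matrix (Fin (n i)) (Fin (n i)) K) (lam : K) : Option (Ix n) → K :=
  fun o => o.elim lam fun q => X q.1 q.2.1 q.2.2

/-- the points `(X, lam)` with `X i * Q i * (X i)ᵀ = lam J` for all `i` -/
def TorS {K : Type*} [Field K] (Q : ∀ i, Matrix (Fin (n i)) (Fin (n i)) K) :
    Set ((∀ i, Matrix (Fin (n i)) (Fin (n i)) K) × K) :=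
  {x | x.2 ≠ 0 ∧ ∀ i, x.1 i * Q i * (x.1 i).transpose = x.2 • jm K (n i)}

/-- the parametrisation -/
def PhiS {K : Type*} [CommRing K] (X0 : ∀ i, Matrix (Fin (n i)) (Fin (n i)) K) (μ : K)
    (g : ∀ i, Matrix (Fin (n i)) (Fin (n i)) K) : Option (Ix n) → K :=
  ptS (fun i => μ • (g i * X0 i)) (μ ^ 2)

theorem PhiS_map {K L : Type*} [CommRing K] [CommRing L] (φ : K →+* L)
    (X0 : ∀ i, Matrix (Fin (n i)) (Fin (n i)) K) (μ : K)
    (g : ∀ i, Matrix (Fin (n i)) (Fin (n i)) K) (o : Option (Ix n)) :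
    φ (PhiS X0 μ g o) = PhiS (fun i => (X0 i).map φ) (φ μ) (fun i => (g i).map φ) o := by
  unfold PhiS
  rcases o with _ | x
  · simp [ptS]
  · simp [ptS, Matrix.mul_apply]

/-- points of the parametrisation are on the torsor -/
theorem PhiS_mem {Q X0 : ∀ i, Matrix (Fin (n i)) (Fin (n i)) ℂ}
    (hX0 : ∀ i, X0 i * Q i * (X0 i).transpose = jm ℂ (n i)) {μ : ℂ} (hμ : μ ≠ 0)
    {g : ∀ i, Matrix (Fin (n i)) (Fin (n i)) ℂ} (hg : ∀ i, g i ∈ SpS ℂ (n i)) :
    ((fun i => μ • (g i * X0 i)), μ ^ 2) ∈ TorS Q := by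
  refine ⟨pow_ne_zero _ hμ, fun j => ?_⟩
  have h1 : g j * jm ℂ (n j) * (g j).transpose = jm ℂ (n j) := hg j
  simp only
  rw [Matrix.transpose_smul, Matrix.smul_mul, Matrix.mul_smul, Matrix.smul_mul, smul_smul, Matrix.transpose_mul]
  have h2 : g j * X0 j * Q j * ((X0 j).transpose * (g j).transpose) =
      g j * (X0 j * Q j * (X0 j).transpose) * (g j).transpose := by simp only [Matrix.mul_assoc]
  rw [h2, hX0, h1, sq]

/-- every point of the torsor is in the parametrisation -/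
theorem exists_PhiS (hn : ∀ i, Even (n i)) {Q X0 : ∀ i, Matrix (Fin (n i)) (Fin (n i)) ℂ}
    (hX0 : ∀ i, X0 i * Q i * (X0 i).transpose = jm ℂ (n i))
    {x : (∀ i, Matrix (Fin (n i)) (Fin (n i)) ℂ) × ℂ} (hx : x ∈ TorS Q) :
    ∃ (μ : ℂ) (g : ∀ i, Matrix (Fin (n i)) (Fin (n i)) ℂ), μ ≠ 0 ∧ (∀ i, g i ∈ SpS ℂ (n i)) ∧
      ptS x.1 x.2 = PhiS X0 μ g := by
  obtain ⟨hx2, hx1⟩ := hx
  obtain ⟨μ, hμ⟩ := IsAlgClosed.exists_pow_nat_eq x.2 (by norm_num : 0 < 2)
  have hμ0 : μ ≠ 0 := by rintro rfl; apply hx2; rw [← hμ]; norm_num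
  have hdet : ∀ j, IsUnit (X0 j).det := by
    intro j
    rw [isUnit_iff_ne_zero]
    intro h0
    have := congrArg Matrix.det (hX0 j)
    rw [Matrix.det_mul, Matrix.det_mul, h0, zero_mul, zero_mul] at this
    exact jm_det (hn j) this.symm
  refine ⟨μ, fun j => μ⁻¹ • (x.1 j * (X0 j)⁻¹), hμ0, fun j => ?_, ?_⟩
  · have hinv := nonsing_inv_mul (X0 j) (hdet j)
    have hQ : (X0 j)⁻¹ * jm ℂ (n j) * ((X0 j)⁻¹).transpose = Q j := by
      have hT : (X0 j).transpose * ((X0 j)⁻¹).transpose = 1 := by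
        rw [← Matrix.transpose_mul, hinv, Matrix.transpose_one]
      calc (X0 j)⁻¹ * jm ℂ (n j) * ((X0 j)⁻¹).transpose =
          (X0 j)⁻¹ * (X0 j * Q j * (X0 j).transpose) * ((X0 j)⁻¹).transpose := by rw [hX0]
        _ = ((X0 j)⁻¹ * X0 j) * Q j * ((X0 j).transpose * ((X0 j)⁻¹).transpose) := by simp only [Matrix.mul_assoc]
        _ = Q j := by rw [hinv, hT, one_mul, mul_one]
    show μ⁻¹ • (x.1 j * (X0 j)⁻¹) * jm ℂ (n j) * (μ⁻¹ • (x.1 j * (X0 j)⁻¹)).transpose = jm ℂ (n j)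
    rw [Matrix.transpose_smul, Matrix.smul_mul, Matrix.mul_smul, Matrix.smul_mul, smul_smul, Matrix.transpose_mul]
    have h2 : x.1 j * (X0 j)⁻¹ * jm ℂ (n j) * (((X0 j)⁻¹).transpose * (x.1 j).transpose) =
        x.1 j * ((X0 j)⁻¹ * jm ℂ (n j) * ((X0 j)⁻¹).transpose) * (x.1 j).transpose := by
      simp only [Matrix.mul_assoc]
    rw [h2, hQ, hx1, smul_smul, ← hμ]
    have : μ⁻¹ * μ⁻¹ * μ ^ 2 = 1 := by field_simp
    rw [this, one_smul]
  · unfold PhiS
    congr 1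
    · funext j
      rw [Matrix.smul_mul, Matrix.mul_assoc, nonsing_inv_mul (X0 j) (hdet j), mul_one, smul_smul,
        mul_inv_cancel₀ hμ0, one_smul]
    · exact hμ.symm

/-- irreducibility -/
theorem irrS (hn : ∀ i, Even (n i)) (X0 : ∀ i, Matrix (Fin (n i)) (Fin (n i)) ℂ)
    (P Q : MvPolynomial (Option (Ix n)) ℂ)
    (h : ∀ (μ : ℂ) (g : ∀ i, Matrix (Fin (n i)) (Fin (n i)) ℂ), μ ≠ 0 → (∀ i, g i ∈ SpS ℂ (n i)) →
      MvPolynomial.aeval (PhiS X0 μ g) P * MvPolynomial.aeval (PhiS X0 μ g) Q = 0) :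
    (∀ (μ : ℂ) (g : ∀ i, Matrix (Fin (n i)) (Fin (n i)) ℂ), μ ≠ 0 → (∀ i, g i ∈ SpS ℂ (n i)) →
      MvPolynomial.aeval (PhiS X0 μ g) P = 0) ∨
    (∀ (μ : ℂ) (g : ∀ i, Matrix (Fin (n i)) (Fin (n i)) ℂ), μ ≠ 0 → (∀ i, g i ∈ SpS ℂ (n i)) →
      MvPolynomial.aeval (PhiS X0 μ g) Q = 0) := by
  classical
  by_contra hcon
  push Not at hcon
  obtain ⟨⟨μ0, g0, hμ0, hg0, hP0⟩, ⟨μ1, g1, hμ1, hg1, hQ1⟩⟩ := hcon
  have hpath : ∀ j, ∃ G : Matrix (Fin (n j)) (Fin (n j)) ℂ[X], G.map (Polynomial.eval 0) = 1 ∧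
      G.map (Polynomial.eval 1) = g1 j * (g0 j)⁻¹ ∧ ∀ s, G.map (Polynomial.eval s) ∈ SpS ℂ (n j) := fun j =>
    exists_path (hn j) _ (SpS_mul (hg1 j) (SpS_inv (hn j) (hg0 j)).1)
  choose G hG0 hG1 hGS using hpath
  -- polynomial path
  set μs : ℂ[X] := C μ0 + X * C (μ1 - μ0) with hμs
  set gs : ∀ i, Matrix (Fin (n i)) (Fin (n i)) ℂ[X] := fun j => G j * (g0 j).map C with hgs
  set X0s : ∀ i, Matrix (Fin (n i)) (Fin (n i)) ℂ[X] := fun j => (X0 j).map C with hX0s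
  set Ps : ℂ[X] := MvPolynomial.aeval (PhiS X0s μs gs) P with hPs
  set Qs : ℂ[X] := MvPolynomial.aeval (PhiS X0s μs gs) Q with hQs
  have hgse : ∀ s j, (gs j).map (Polynomial.evalRingHom s) = (G j).map (Polynomial.eval s) * g0 j := by
    intro s j
    simp only [hgs]
    rw [Matrix.map_mul]
    congr 1
    ext a b
    simp
  have hX0e : ∀ s j, (X0s j).map (Polynomial.evalRingHom s) = X0 j := by
    intro s j
    ext a b
    simp [hX0s]
  have hev : ∀ (R : MvPolynomial (Option (Ix n)) ℂ) (s : ℂ),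
      (MvPolynomial.aeval (PhiS X0s μs gs) R : ℂ[X]).eval s =
        MvPolynomial.aeval (PhiS X0 (μs.eval s) (fun j => (G j).map (Polynomial.eval s) * g0 j)) R := by
    intro R s
    have h1 := MvPolynomial.comp_aeval_apply (f := PhiS X0s μs gs) (Polynomial.aeval s : ℂ[X] →ₐ[ℂ] ℂ) R
    rw [Polynomial.coe_aeval_eq_eval] at h1
    rw [h1]
    congr 2
    funext o
    have h2 := PhiS_map (Polynomial.evalRingHom s) X0s μs gs o
    simp only [hX0e, hgse] at h2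
    exact h2
  have hPs0 : Ps ≠ 0 := by
    intro h0
    apply hP0
    have h1 := hev P 0
    rw [← hPs, h0, eval_zero] at h1
    have h2 : μs.eval 0 = μ0 := by simp [hμs]
    have h3 : (fun j => (G j).map (Polynomial.eval 0) * g0 j) = g0 := by
      funext j; rw [hG0, one_mul]
    rw [h2, h3] at h1
    exact h1.symm
  have hQs0 : Qs ≠ 0 := by
    intro h0
    apply hQ1
    have h1 := hev Q 1
    rw [← hQs, h0, eval_zero] at h1
    have h2 : μs.eval 1 = μ1 := by simp [hμs]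
    have h3 : (fun j => (G j).map (Polynomial.eval 1) * g0 j) = g1 := by
      funext j; rw [hG1, Matrix.mul_assoc, (SpS_inv (hn j) (hg0 j)).2, mul_one]
    rw [h2, h3] at h1
    exact h1.symm
  have hμs0 : μs ≠ 0 := by
    intro h0
    apply hμ0
    have : μs.eval 0 = μ0 := by simp [hμs]
    rw [← this, h0, eval_zero]
  have hne : Ps * Qs * μs ≠ 0 := mul_ne_zero (mul_ne_zero hPs0 hQs0) hμs0
  obtain ⟨s, hs⟩ : ∃ s : ℂ, (Ps * Qs * μs).eval s ≠ 0 := by
    by_contra hall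
    push Not at hall
    exact hne (Polynomial.funext fun s => by rw [hall s, eval_zero])
  rw [eval_mul, eval_mul] at hs
  have h1 := h (μs.eval s) (fun j => (G j).map (Polynomial.eval s) * g0 j) (right_ne_zero_of_mul hs)
    (fun j => SpS_mul (hGS j s) (hg0 j))
  rw [← hev, ← hev] at h1
  exact left_ne_zero_of_mul hs h1

/-- irreducibility, products -/
theorem irrS_prod (hn : ∀ i, Even (n i)) (X0 : ∀ i, Matrix (Fin (n i)) (Fin (n i)) ℂ) {κ : Type*} (s : Finset κ)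
    (P : κ → MvPolynomial (Option (Ix n)) ℂ)
    (h : ∀ (μ : ℂ) (g : ∀ i, Matrix (Fin (n i)) (Fin (n i)) ℂ), μ ≠ 0 → (∀ i, g i ∈ SpS ℂ (n i)) →
      MvPolynomial.aeval (PhiS X0 μ g) (∏ i ∈ s, P i) = 0) :
    ∃ i ∈ s, ∀ (μ : ℂ) (g : ∀ i, Matrix (Fin (n i)) (Fin (n i)) ℂ), μ ≠ 0 → (∀ i, g i ∈ SpS ℂ (n i)) →
      MvPolynomial.aeval (PhiS X0 μ g) (P i) = 0 := by
  classical
  induction s using Finset.induction_on with
  | empty =>
    exfalso
    have := h 1 (fun _ => 1) one_ne_zero (fun _ => SpS_one)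
    rw [Finset.prod_empty, map_one] at this
    exact one_ne_zero this
  | insert i s hi ih =>
    rcases irrS hn X0 (P i) (∏ i ∈ s, P i) (fun μ g hμ hg => by
      have := h μ g hμ hg
      rw [Finset.prod_insert hi, map_mul] at this
      exact this) with h1 | h1
    · exact ⟨i, Finset.mem_insert_self _ _, h1⟩
    · obtain ⟨k, hk, hk2⟩ := ih h1
      exact ⟨k, Finset.mem_insert_of_mem hk, hk2⟩

variable [Fintype ι] [DecidableEq ι]

/-- density of the rational points -/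
theorem denseS_tor (hn : ∀ i, Even (n i)) (X0 : ∀ i, Matrix (Fin (n i)) (Fin (n i)) ℂ)
    (P : MvPolynomial (Option (Ix n)) ℂ)
    (h : ∀ (ρ : ℚ) (g : ∀ i, Matrix (Fin (n i)) (Fin (n i)) ℚ), ρ ≠ 0 → (∀ i, g i ∈ SpS ℚ (n i)) →
      MvPolynomial.aeval (PhiS X0 (ρ : ℂ) (fun i => (g i).map (algebraMap ℚ ℂ))) P = 0) :
    ∀ (μ : ℂ) (g : ∀ i, Matrix (Fin (n i)) (Fin (n i)) ℂ), (∀ i, g i ∈ SpS ℂ (n i)) →
      MvPolynomial.aeval (PhiS X0 μ g) P = 0 := by
  classical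
  -- all `μ`
  have h1 : ∀ (μ : ℂ) (g : ∀ i, Matrix (Fin (n i)) (Fin (n i)) ℚ), (∀ i, g i ∈ SpS ℚ (n i)) →
      MvPolynomial.aeval (PhiS X0 μ (fun j => (g j).map (algebraMap ℚ ℂ))) P = 0 := by
    intro μ g hg
    set X0s : ∀ i, Matrix (Fin (n i)) (Fin (n i)) ℂ[X] := fun j => (X0 j).map C with hX0s
    set gs : ∀ i, Matrix (Fin (n i)) (Fin (n i)) ℂ[X] := fun j => ((g j).map (algebraMap ℚ ℂ)).map C with hgs
    have hev : ∀ s : ℂ, (MvPolynomial.aeval (PhiS X0s X gs) P : ℂ[X]).eval s =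
        MvPolynomial.aeval (PhiS X0 s (fun j => (g j).map (algebraMap ℚ ℂ))) P := by
      intro s
      have h1 := MvPolynomial.comp_aeval_apply (f := PhiS X0s X gs) (Polynomial.aeval s : ℂ[X] →ₐ[ℂ] ℂ) P
      rw [Polynomial.coe_aeval_eq_eval] at h1
      rw [h1]
      congr 2
      funext o
      have h2 := PhiS_map (Polynomial.evalRingHom s) X0s X gs o
      have h3 : (fun j => (X0s j).map (Polynomial.evalRingHom s)) = X0 := by
        funext j; ext a b; simp [hX0s]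
      have h4 : (fun j => (gs j).map (Polynomial.evalRingHom s)) = fun j => (g j).map (algebraMap ℚ ℂ) := by
        funext j; ext a b; simp [hgs]
      rw [h3, h4] at h2
      simpa using h2
    have hz : (MvPolynomial.aeval (PhiS X0s X gs) P : ℂ[X]) = 0 := by
      refine Polynomial.eq_zero_of_infinite_isRoot _ ?_
      have hinf : (((fun q : ℚ => (q : ℂ)) '' {q : ℚ | q ≠ 0})).Infinite := by
        refine Set.Infinite.image (fun a _ b _ hab => by exact_mod_cast hab) ?_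
        have : {q : ℚ | q ≠ 0} = ({0} : Set ℚ)ᶜ := by ext; simp
        rw [this]
        exact (Set.finite_singleton (0 : ℚ)).infinite_compl
      refine hinf.mono ?_
      rintro _ ⟨q, hq, rfl⟩
      show (MvPolynomial.aeval (PhiS X0s X gs) P : ℂ[X]).eval (q : ℂ) = 0
      rw [hev]
      exact h q g hq hg
    rw [← hev, hz, eval_zero]
  intro μ g hg
  -- polynomial in the entries of `g`
  set X0v : ∀ i, Matrix (Fin (n i)) (Fin (n i)) (MvPolynomial (Ix n) ℂ) := fun j => (X0 j).map MvPolynomial.C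
    with hX0v
  set gv : ∀ i, Matrix (Fin (n i)) (Fin (n i)) (MvPolynomial (Ix n) ℂ) := fun j =>
    Matrix.of fun l c => MvPolynomial.X ⟨j, (l, c)⟩ with hgv
  set Pv : MvPolynomial (Ix n) ℂ := MvPolynomial.aeval (PhiS X0v (MvPolynomial.C μ) gv) P with hPv
  have hev : ∀ h : ∀ i, Matrix (Fin (n i)) (Fin (n i)) ℂ, MvPolynomial.eval (fun q => (h q.1) q.2.1 q.2.2) Pv =
      MvPolynomial.aeval (PhiS X0 μ h) P := by
    intro h
    have h3 := MvPolynomial.comp_aeval_apply (f := PhiS X0v (MvPolynomial.C μ) gv)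
      (MvPolynomial.aeval (fun x : Ix n => h x.1 x.2.1 x.2.2) : MvPolynomial (Ix n) ℂ →ₐ[ℂ] ℂ) P
    have h4 : MvPolynomial.eval (fun q => (h q.1) q.2.1 q.2.2) Pv =
        MvPolynomial.aeval (fun x : Ix n => h x.1 x.2.1 x.2.2) Pv := by
      rw [MvPolynomial.aeval_eq_eval]
    rw [h4, hPv, h3]
    congr 2
    funext o
    have h5 := PhiS_map (MvPolynomial.aeval (fun x : Ix n => h x.1 x.2.1 x.2.2) :
      MvPolynomial (Ix n) ℂ →ₐ[ℂ] ℂ).toRingHom X0v (MvPolynomial.C μ) gv o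
    have e1 : (fun j => (X0v j).map (MvPolynomial.aeval (fun x : Ix n => h x.1 x.2.1 x.2.2) :
        MvPolynomial (Ix n) ℂ →ₐ[ℂ] ℂ).toRingHom) = X0 := by
      funext j; ext a b; simp [hX0v]
    have e2 : (fun j => (gv j).map (MvPolynomial.aeval (fun x : Ix n => h x.1 x.2.1 x.2.2) :
        MvPolynomial (Ix n) ℂ →ₐ[ℂ] ℂ).toRingHom) = h := by
      funext j; ext a b; simp [hgv]
    rw [e1, e2] at h5
    simpa using h5
  have hP0 := dense_prod hn Pv (fun q hq => by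
    rw [hev fun i => (q i).map (algebraMap ℚ ℂ)]
    exact h1 μ q hq) g hg
  rw [hev] at hP0
  exact hP0


end Pool.Agent.N121.OH
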