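import Mathlib

/-!
# Monic polynomials, by coefficients and by roots
-/

set_option autoImplicit false

open Polynomial

namespace Pool.Agent.N121.OH

variable {n : ℕ}

section ring

variable {R : Type*} [CommRing R]

/-- the monic polynomial with the given coefficients -/
noncomputable def cp (a : Fin (n + 1) → R) : R[X] := X ^ (n + 1) + ∑ m : Fin (n + 1), C (a m) * X ^ (m : ℕ)

/-- the monic polynomial with the given roots -/
noncomputable def rp (e : Fin (n + 1) → R) : R[X] := ∏ r, (X - C (e r))

theorem cp_sum_degree (a : Fin (n + 1) → R) :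
    (∑ m : Fin (n + 1), C (a m) * X ^ (m : ℕ)).degree < ((n + 1 : ℕ) : WithBot ℕ) := by
  refine (degree_sum_le _ _).trans_lt ?_
  rw [Finset.sup_lt_iff (by exact WithBot.bot_lt_coe _)]
  intro m _
  exact (degree_C_mul_X_pow_le _ _).trans_lt (by exact_mod_cast m.2)

theorem cp_monic (a : Fin (n + 1) → R) : (cp a).Monic := monic_X_pow_add (cp_sum_degree a)

theorem cp_natDegree [Nontrivial R] (a : Fin (n + 1) → R) : (cp a).natDegree = n + 1 := by
  unfold cp
  rw [natDegree_add_eq_left_of_degree_lt, natDegree_X_pow]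
  rw [degree_X_pow]
  exact cp_sum_degree a

theorem cp_coeff (a : Fin (n + 1) → R) (m : Fin (n + 1)) : (cp a).coeff (m : ℕ) = a m := by
  unfold cp
  rw [coeff_add, coeff_X_pow, if_neg m.2.ne, zero_add, finsetSum_coeff, Finset.sum_eq_single m]
  · simp
  · intro b _ hb
    rw [coeff_C_mul, coeff_X_pow, if_neg, mul_zero]
    exact fun h => hb (Fin.ext h.symm)
  · intro h
    exact absurd (Finset.mem_univ m) h

theorem cp_coeff' (a : Fin (n + 1) → R) (k : ℕ) :
    (cp a).coeff k = if h : k < n + 1 then a ⟨k, h⟩ else if k = n + 1 then 1 else 0 := by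
  split_ifs with h1 h2
  · exact cp_coeff a ⟨k, h1⟩
  · subst h2
    unfold cp
    rw [coeff_add, coeff_X_pow, if_pos rfl, coeff_eq_zero_of_degree_lt (cp_sum_degree a), add_zero]
  · unfold cp
    rw [coeff_add, coeff_X_pow, if_neg h2, zero_add]
    refine coeff_eq_zero_of_degree_lt ((cp_sum_degree a).trans_le ?_)
    exact_mod_cast not_lt.1 h1

theorem cp_inj {a b : Fin (n + 1) → R} (h : cp a = cp b) : a = b := by
  funext m
  rw [← cp_coeff a m, h, cp_coeff]

theorem rp_monic (e : Fin (n + 1) → R) : (rp e).Monic := monic_prod_X_sub_C _ _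

theorem rp_natDegree [Nontrivial R] (e : Fin (n + 1) → R) : (rp e).natDegree = n + 1 := by
  unfold rp
  rw [natDegree_finset_prod_X_sub_C_eq_card, Finset.card_univ, Fintype.card_fin]

/-- the coefficients -/
noncomputable def vc (e : Fin (n + 1) → R) : Fin (n + 1) → R := fun m => (rp e).coeff (m : ℕ)

theorem eq_cp {p : R[X]} (hp : p.Monic) (hd : p.natDegree = n + 1) : p = cp (fun m : Fin (n + 1) => p.coeff (m : ℕ)) := by
  ext k
  rw [cp_coeff']
  split_ifs with h1 h2
  · rfl
  · subst h2
    rw [← hd]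
    exact hp
  · apply coeff_eq_zero_of_natDegree_lt
    omega

theorem cp_vc [Nontrivial R] (e : Fin (n + 1) → R) : cp (vc e) = rp e :=
  (eq_cp (rp_monic e) (rp_natDegree e)).symm

theorem map_cp {S : Type*} [CommRing S] (φ : R →+* S) (a : Fin (n + 1) → R) : (cp a).map φ = cp (fun m => φ (a m)) := by
  unfold cp
  simp [Polynomial.map_sum]

theorem map_rp {S : Type*} [CommRing S] (φ : R →+* S) (e : Fin (n + 1) → R) : (rp e).map φ = rp (fun r => φ (e r)) := by
  unfold rp
  rw [Polynomial.map_prod]
  simp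

theorem rp_scale_eval (u : R) (e : Fin (n + 1) → R) (x : R) :
    (rp fun r => u * e r).eval (u * x) = u ^ (n + 1) * (rp e).eval x := by
  unfold rp
  rw [eval_prod, eval_prod]
  simp only [eval_sub, eval_X, eval_C, ← mul_sub]
  rw [Finset.prod_mul_distrib, Finset.prod_const, Finset.card_univ, Fintype.card_fin]

end ring

section field

variable {K : Type*} [Field K]

theorem rp_scale_coeff [Infinite K] {u : K} (hu : u ≠ 0) (e : Fin (n + 1) → K) {m : ℕ} (hm : m ≤ n + 1) :
    (rp fun r => u * e r).coeff m = u ^ (n + 1 - m) * (rp e).coeff m := by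
  have h1 : (rp fun r => u * e r).comp (C u * X) = C (u ^ (n + 1)) * rp e := by
    refine Polynomial.funext fun x => ?_
    rw [eval_comp, eval_mul, eval_C, eval_X, rp_scale_eval, eval_mul, eval_C]
  have h2 := congrArg (fun p => p.coeff m) h1
  simp only [comp_C_mul_X_coeff, coeff_C_mul] at h2
  have h3 : u ^ m ≠ 0 := pow_ne_zero _ hu
  have h4 : u ^ (n + 1) = u ^ (n + 1 - m) * u ^ m := by rw [← pow_add, Nat.sub_add_cancel hm]
  rw [h4] at h2
  apply mul_right_cancel₀ h3
  rw [h2]
  ring

/-- monic polynomials of degree `n + 1` which agree at `n + 1` points are equal -/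
theorem eq_of_eval {p q : K[X]} (hp : p.Monic) (hq : q.Monic) (hpd : p.natDegree = n + 1) (hqd : q.natDegree = n + 1)
    {x : Fin (n + 1) → K} (hx : Function.Injective x) (h : ∀ k, p.eval (x k) = q.eval (x k)) : p = q := by
  rw [← sub_eq_zero]
  refine eq_zero_of_natDegree_lt_card_of_eval_eq_zero _ hx (fun k => by rw [eval_sub, h, sub_self]) ?_
  rw [Fintype.card_fin]
  rcases eq_or_ne (p - q) 0 with h0 | h0
  · rw [h0, natDegree_zero]
    omega
  have h1 : (p - q).degree < p.degree := by
    refine degree_sub_lt ?_ hp.ne_zero ?_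
    · rw [degree_eq_natDegree hp.ne_zero, degree_eq_natDegree hq.ne_zero, hpd, hqd]
    · rw [hp.leadingCoeff, hq.leadingCoeff]
  have h2 := natDegree_lt_natDegree h0 h1
  omega

end field

end Pool.Agent.N121.OH
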