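import Pool.Agent.N121.OH.Poly

/-!
# The roots as functions of the coefficients
-/

set_option autoImplicit false

open Polynomial Topology Filter

namespace Pool.Agent.N121.OH

variable {n : ℕ}

/-- increasing real parts -/
def OrdR (n : ℕ) : Set (Fin (n + 1) → ℂ) := {e | ∀ i k, i < k → (e i).re < (e k).re}

theorem OrdR_open (n : ℕ) : IsOpen (OrdR n) := by
  have h : OrdR n = ⋂ i : Fin (n + 1), ⋂ k : Fin (n + 1), {e : Fin (n + 1) → ℂ | i < k → (e i).re < (e k).re} := by
    ext e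
    simp [OrdR]
  rw [h]
  refine isOpen_iInter_of_finite fun i => isOpen_iInter_of_finite fun k => ?_
  by_cases hik : i < k
  · simp only [hik, true_imp_iff]
    exact isOpen_lt (by fun_prop) (by fun_prop)
  · simp only [hik, false_imp_iff]
    exact isOpen_univ

theorem OrdR_inj {e : Fin (n + 1) → ℂ} (he : e ∈ OrdR n) : Function.Injective e := by
  intro i k h
  rcases lt_trichotomy i k with h1 | h1 | h1
  · exact absurd (he _ _ h1) (by rw [h]; exact lt_irrefl _)
  · exact h1
  · exact absurd (he _ _ h1) (by rw [h]; exact lt_irrefl _)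

/-- the values of the polynomial with the given roots at `0, 1, …, n` -/
noncomputable def ev (e : Fin (n + 1) → ℂ) (k : Fin (n + 1)) : ℂ := ∏ r, (((k : ℕ) : ℂ) - e r)

theorem ev_eq (e : Fin (n + 1) → ℂ) (k : Fin (n + 1)) : ev e k = (rp e).eval ((k : ℕ) : ℂ) := by
  unfold ev rp
  rw [eval_prod]
  simp

/-- the derivative -/
noncomputable def evD (e : Fin (n + 1) → ℂ) : (Fin (n + 1) → ℂ) →L[ℂ] (Fin (n + 1) → ℂ) :=
  ContinuousLinearMap.pi fun k => ∑ r, (∏ s ∈ Finset.univ.erase r, (((k : ℕ) : ℂ) - e s)) •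
    (-(ContinuousLinearMap.proj (R := ℂ) (φ := fun _ : Fin (n + 1) => ℂ) r))

theorem ev_hasStrictFDerivAt (e : Fin (n + 1) → ℂ) : HasStrictFDerivAt (ev (n := n)) (evD e) e := by
  refine hasStrictFDerivAt_pi.2 fun k => ?_
  have h1 : ∀ r ∈ (Finset.univ : Finset (Fin (n + 1))), HasStrictFDerivAt
      (fun e : Fin (n + 1) → ℂ => ((k : ℕ) : ℂ) - e r)
      (-(ContinuousLinearMap.proj (R := ℂ) (φ := fun _ : Fin (n + 1) => ℂ) r)) e := by
    intro r _
    have h2 : HasStrictFDerivAt (fun e : Fin (n + 1) → ℂ => e r)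
      (ContinuousLinearMap.proj (R := ℂ) (φ := fun _ : Fin (n + 1) => ℂ) r) e :=
      (ContinuousLinearMap.proj (R := ℂ) (φ := fun _ : Fin (n + 1) => ℂ) r).hasStrictFDerivAt
    exact h2.const_sub _
  exact HasStrictFDerivAt.finsetProd h1

theorem evD_inj {e : Fin (n + 1) → ℂ} (he : Function.Injective e) : Function.Injective (evD e) := by
  rw [injective_iff_map_eq_zero]
  intro h hh
  set q : ℂ[X] := ∑ r, C (h r) * ∏ s ∈ Finset.univ.erase r, (X - C (e s)) with hq
  have hx : Function.Injective fun k : Fin (n + 1) => ((k : ℕ) : ℂ) := by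
    intro i k hik
    have h1 : ((i : ℕ) : ℂ) = ((k : ℕ) : ℂ) := hik
    exact Fin.ext (by exact_mod_cast h1)
  have hq0 : q = 0 := by
    refine eq_zero_of_natDegree_lt_card_of_eval_eq_zero q hx (fun k => ?_) ?_
    · have h1 := congrFun hh k
      simp only [evD, ContinuousLinearMap.coe_pi', Pi.zero_apply, sum_apply,
        smul_apply, neg_apply, ContinuousLinearMap.proj_apply, smul_eq_mul,
        mul_neg, Finset.sum_neg_distrib, neg_eq_zero] at h1
      rw [hq, eval_finsetSum, ← h1]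
      refine Finset.sum_congr rfl fun r _ => ?_
      rw [eval_mul, eval_C, eval_prod, mul_comm]
      simp
    · rw [Fintype.card_fin]
      refine Nat.lt_succ_of_le (natDegree_sum_le_of_forall_le _ _ fun r _ => ?_)
      refine (natDegree_C_mul_le _ _).trans ?_
      refine (natDegree_prod_le _ _).trans ?_
      refine (Finset.sum_le_card_nsmul _ _ 1 fun s _ => ?_).trans ?_
      · exact (natDegree_X_sub_C_le _)
      · rw [Finset.card_erase_of_mem (Finset.mem_univ r), Finset.card_univ, Fintype.card_fin]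
        simp
  funext r
  have h2 := congrArg (Polynomial.eval (e r)) hq0
  rw [hq, eval_finsetSum, Finset.sum_eq_single r, eval_mul, eval_C, eval_prod, eval_zero, mul_eq_zero] at h2
  · rcases h2 with h2 | h2
    · exact h2
    · exfalso
      rw [Finset.prod_eq_zero_iff] at h2
      obtain ⟨s, hs, h3⟩ := h2
      rw [eval_sub, eval_X, eval_C, sub_eq_zero] at h3
      exact (Finset.mem_erase.1 hs).1 (he h3).symm
  · intro b _ hb
    rw [eval_mul, eval_prod, Finset.prod_eq_zero (Finset.mem_erase.2 ⟨hb.symm, Finset.mem_univ r⟩), mul_zero]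
    simp
  · intro h3
    exact absurd (Finset.mem_univ r) h3

/-- the derivative as an isomorphism -/
noncomputable def evE {e : Fin (n + 1) → ℂ} (he : Function.Injective e) :
    (Fin (n + 1) → ℂ) ≃L[ℂ] (Fin (n + 1) → ℂ) :=
  (LinearEquiv.ofInjectiveEndo (evD e : (Fin (n + 1) → ℂ) →ₗ[ℂ] (Fin (n + 1) → ℂ)) (evD_inj he)).toContinuousLinearEquiv

theorem evE_coe {e : Fin (n + 1) → ℂ} (he : Function.Injective e) :
    ((evE he : (Fin (n + 1) → ℂ) ≃L[ℂ] (Fin (n + 1) → ℂ)) : (Fin (n + 1) → ℂ) →L[ℂ] (Fin (n + 1) → ℂ)) = evD e := by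
  ext x k
  rfl

/-- the configurations are determined by the polynomial -/
theorem OrdR_unique {u : ℂ} (hu : u ≠ 0) {e e' : Fin (n + 1) → ℂ} (he : e ∈ OrdR n) (he' : e' ∈ OrdR n)
    (h : rp (fun r => u * e r) = rp (fun r => u * e' r)) : e = e' := by
  have hsub : ∀ {e e' : Fin (n + 1) → ℂ}, rp (fun r => u * e r) = rp (fun r => u * e' r) → ∀ r, ∃ s, e r = e' s := by
    intro e e' h r
    have h1 : (rp (fun r => u * e' r)).eval (u * e r) = 0 := by
      rw [← h]
      unfold rp
      rw [eval_prod]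
      exact Finset.prod_eq_zero (Finset.mem_univ r) (by simp)
    unfold rp at h1
    rw [eval_prod, Finset.prod_eq_zero_iff] at h1
    obtain ⟨s, _, h2⟩ := h1
    rw [eval_sub, eval_X, eval_C, sub_eq_zero] at h2
    exact ⟨s, mul_left_cancel₀ hu h2⟩
  have hm : StrictMono fun r => (e r).re := fun i k hik => he i k hik
  have hm' : StrictMono fun r => (e' r).re := fun i k hik => he' i k hik
  have hr : Set.range (fun r => (e r).re) = Set.range (fun r => (e' r).re) := by
    ext y
    constructor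
    · rintro ⟨r, rfl⟩
      obtain ⟨s, hs⟩ := hsub h r
      exact ⟨s, by simp only [hs]⟩
    · rintro ⟨r, rfl⟩
      obtain ⟨s, hs⟩ := hsub h.symm r
      exact ⟨s, by simp only [hs]⟩
  have h1 := (hm.range_inj hm').1 hr
  funext r
  obtain ⟨s, hs⟩ := hsub h r
  have h2 : (e' s).re = (e' r).re := by
    rw [← hs]
    exact congrFun h1 r
  have h3 : s = r := hm'.injective h2
  rw [hs, h3]

/-- the coefficients of the polynomials with roots `u * e r`, the `e r` with increasing real parts -/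
def Un (u : ℂ) (n : ℕ) : Set (Fin (n + 1) → ℂ) := {a | ∃ e ∈ OrdR n, cp a = rp (fun r => u * e r)}

open Classical in
/-- the roots divided by `u` -/
noncomputable def rt (u : ℂ) (a : Fin (n + 1) → ℂ) : Fin (n + 1) → ℂ :=
  if h : a ∈ Un u n then h.choose else 0

theorem rt_mem {u : ℂ} {a : Fin (n + 1) → ℂ} (h : a ∈ Un u n) : rt u a ∈ OrdR n := by
  unfold rt
  rw [dif_pos h]
  exact h.choose_spec.1

theorem rt_eq {u : ℂ} {a : Fin (n + 1) → ℂ} (h : a ∈ Un u n) : cp a = rp (fun r => u * rt u a r) := by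
  unfold rt
  rw [dif_pos h]
  exact h.choose_spec.2

theorem rt_unique {u : ℂ} (hu : u ≠ 0) {a e : Fin (n + 1) → ℂ} (he : e ∈ OrdR n)
    (h : cp a = rp (fun r => u * e r)) : rt u a = e := by
  have h1 : a ∈ Un u n := ⟨e, he, h⟩
  exact OrdR_unique hu (rt_mem h1) he ((rt_eq h1).symm.trans h)

theorem rt_nhds {u : ℂ} (hu : u ≠ 0) {a : Fin (n + 1) → ℂ} (ha : a ∈ Un u n) :
    Un u n ∈ 𝓝 a ∧ DifferentiableAt ℂ (rt u) a := by
  obtain ⟨e, he, hae⟩ := ha
  set z : Fin (n + 1) → ℂ := fun r => u * e r with hz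
  have hzi : Function.Injective z := fun i k h => OrdR_inj he (mul_left_cancel₀ hu h)
  have hs : HasStrictFDerivAt (ev (n := n)) ((evE hzi : (Fin (n + 1) → ℂ) ≃L[ℂ] (Fin (n + 1) → ℂ)) :
      (Fin (n + 1) → ℂ) →L[ℂ] (Fin (n + 1) → ℂ)) z := by
    rw [evE_coe]
    exact ev_hasStrictFDerivAt z
  set g := hs.localInverse (ev (n := n)) (evE hzi) z with hg
  -- the values of the polynomial with coefficients `a`
  set V : (Fin (n + 1) → ℂ) → (Fin (n + 1) → ℂ) := fun a k => (cp a).eval ((k : ℕ) : ℂ) with hV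
  have hVd : Differentiable ℂ V := by
    refine differentiable_pi.2 fun k => ?_
    have h1 : (fun a : Fin (n + 1) → ℂ => V a k) = fun a => ((k : ℕ) : ℂ) ^ (n + 1) +
        ∑ m : Fin (n + 1), a m * ((k : ℕ) : ℂ) ^ (m : ℕ) := by
      funext a
      simp only [hV, cp]
      simp [eval_finsetSum]
    rw [h1]
    fun_prop
  have hVa : V a = ev z := by
    funext k
    rw [ev_eq, hV]
    simp only [hae, hz]
  have hgz : g (V a) = z := by
    rw [hVa]
    exact hs.localInverse_apply_image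
  have hgd : DifferentiableAt ℂ g (V a) := by
    rw [hVa]
    exact hs.to_localInverse.hasFDerivAt.differentiableAt
  have hgVd : DifferentiableAt ℂ (fun b => g (V b)) a := hgd.comp a (hVd a)
  have hcomp : Tendsto (fun b => V b) (𝓝 a) (𝓝 (ev z)) := by
    rw [← hVa]
    exact (hVd a).continuousAt
  have h1 : ∀ᶠ b in 𝓝 a, ev (g (V b)) = V b := hcomp.eventually hs.eventually_right_inverse
  set E : (Fin (n + 1) → ℂ) → (Fin (n + 1) → ℂ) := fun b r => u⁻¹ * g (V b) r with hE
  have hEd : DifferentiableAt ℂ E a := by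
    refine differentiableAt_pi.2 fun r => ?_
    exact ((differentiableAt_pi.1 hgVd) r).const_mul _
  have hEa : E a = e := by
    funext r
    simp only [hE, hgz, hz]
    rw [inv_mul_cancel_left₀ hu]
  have h2 : ∀ᶠ b in 𝓝 a, E b ∈ OrdR n := by
    refine hEd.continuousAt.eventually ((OrdR_open n).mem_nhds ?_)
    rw [hEa]
    exact he
  have h3 : ∀ᶠ b in 𝓝 a, E b ∈ OrdR n ∧ cp b = rp (fun r => u * E b r) := by
    filter_upwards [h1, h2] with b hb1 hb2
    refine ⟨hb2, ?_⟩
    have h4 : (fun r => u * E b r) = g (V b) := by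
      funext r
      simp only [hE]
      rw [mul_inv_cancel_left₀ hu]
    rw [h4]
    refine eq_of_eval (cp_monic b) (rp_monic _) (cp_natDegree b) (rp_natDegree _)
      (x := fun k : Fin (n + 1) => ((k : ℕ) : ℂ)) (fun i k hik => Fin.ext (by
        have h5 : ((i : ℕ) : ℂ) = ((k : ℕ) : ℂ) := hik
        exact_mod_cast h5)) fun k => ?_
    rw [← ev_eq, hb1]
  refine ⟨?_, ?_⟩
  · filter_upwards [h3] with b hb
    exact ⟨E b, hb.1, hb.2⟩
  · refine hEd.congr_of_eventuallyEq ?_
    filter_upwards [h3] with b hb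
    exact rt_unique hu hb.1 hb.2

theorem Un_open {u : ℂ} (hu : u ≠ 0) (n : ℕ) : IsOpen (Un u n) :=
  isOpen_iff_mem_nhds.2 fun _ ha => (rt_nhds hu ha).1

theorem rt_diff {u : ℂ} (hu : u ≠ 0) (n : ℕ) : DifferentiableOn ℂ (rt u) (Un u n) := fun _ ha =>
  (rt_nhds hu ha).2.differentiableWithinAt

theorem vc_mem {u : ℂ} {e : Fin (n + 1) → ℂ} (he : e ∈ OrdR n) : vc (fun r => u * e r) ∈ Un u n :=
  ⟨e, he, cp_vc _⟩

theorem vc_rt {u : ℂ} {a : Fin (n + 1) → ℂ} (ha : a ∈ Un u n) : vc (fun r => u * rt u a r) = a :=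
  cp_inj ((cp_vc _).trans (rt_eq ha).symm)

end Pool.Agent.N121.OH
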