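import Pool.Agent.N121.OH.Per
import Pool.Agent.N121.OH.Fam

/-!
# Scaling
-/

set_option autoImplicit false
set_option linter.unusedSectionVars false

open Complex Set MeasureTheory Filter Topology

namespace Pool.Agent.N121.OH

open Pool.Agent.Y118.HP (dl dl_ne perC fac ker seg sin_sq_mem qm bm)
open Pool.Agent.Y890.HE (Ord seg_lt seg_gt slit_of_re)
open Pool.Agent.Y890.MV
open Pool.Agent.Y890.SM

variable {n : ℕ}

theorem sq_cpow {s : ℝ} (hs : 0 < s) : ((s ^ 2 : ℝ) : ℂ) ^ (-(1 / 2) : ℂ) = (s : ℂ)⁻¹ := by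
  rw [cpow_neg, sqrt_coe (by positivity), Real.sqrt_sq hs.le]

theorem fac_scale {e : Fin (n + 1) → ℂ} (he : e ∈ Ord n) {s : ℝ} (hs : 0 < s) (l : Fin n) (i : Fin (n + 1)) {t : ℝ}
    (h0 : 0 ≤ t) (h1 : t ≤ 1) :
    fac (fun r => ((s ^ 2 : ℝ) : ℂ) * e r) l i (((s ^ 2 : ℝ) : ℂ) * seg (e l.castSucc) (e l.succ) t) =
      (if i < l.castSucc ∨ l.succ < i then (s : ℂ)⁻¹ else 1) * fac e l i (seg (e l.castSucc) (e l.succ) t) := by
  have hs2 : 0 < s ^ 2 := by positivity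
  unfold fac
  by_cases h2 : i < l.castSucc
  · rw [if_pos h2, if_pos h2, if_pos (Or.inl h2), ← mul_sub, mul_cpow_pos hs2
      (slitPlane_ne_zero (seg_lt he h2 h0 h1)), sq_cpow hs]
  · by_cases h3 : l.succ < i
    · rw [if_neg h2, if_neg h2, if_pos h3, if_pos h3, if_pos (Or.inr h3), ← mul_sub, mul_cpow_pos hs2
        (slitPlane_ne_zero (seg_gt he h3 h0 h1)), sq_cpow hs]
    · rw [if_neg h2, if_neg h2, if_neg h3, if_neg h3, if_neg (by tauto), mul_one]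

theorem prod_scale (s : ℝ) (l : Fin n) :
    (∏ i : Fin (n + 1), if i < l.castSucc ∨ l.succ < i then (s : ℂ)⁻¹ else 1) = (s : ℂ)⁻¹ ^ (n - 1) := by
  classical
  rw [Finset.prod_ite, Finset.prod_const_one, mul_one, Finset.prod_const]
  congr 1
  have h1 : (Finset.univ.filter fun i : Fin (n + 1) => i < l.castSucc ∨ l.succ < i) =
      Finset.univ \ {l.castSucc, l.succ} := by
    ext i
    simp only [Finset.mem_filter, Finset.mem_univ, true_and, Finset.mem_sdiff, Finset.mem_insert,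
      Finset.mem_singleton, Fin.lt_def, Fin.ext_iff, Fin.val_succ, Fin.val_castSucc]
    omega
  rw [h1, Finset.card_sdiff_of_subset (Finset.subset_univ _), Finset.card_univ, Fintype.card_fin,
    Finset.card_pair Fin.castSucc_lt_succ.ne]
  omega

theorem perC_scale {e : Fin (n + 1) → ℂ} (he : e ∈ Ord n) {s : ℝ} (hs : 0 < s) (l : Fin n) (j : ℕ) :
    perC (fun r => ((s ^ 2 : ℝ) : ℂ) * e r) l j = (s : ℂ) ^ (2 * (j : ℤ) + 1 - n) * perC e l j := by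
  have hs0 : (s : ℂ) ≠ 0 := by exact_mod_cast hs.ne'
  unfold perC
  rw [← intervalIntegral.integral_const_mul]
  refine intervalIntegral.integral_congr fun θ _ => ?_
  have h1 := sin_sq_mem θ
  have hseg : seg (((s ^ 2 : ℝ) : ℂ) * e l.castSucc) (((s ^ 2 : ℝ) : ℂ) * e l.succ) (Real.sin θ ^ 2) =
      ((s ^ 2 : ℝ) : ℂ) * seg (e l.castSucc) (e l.succ) (Real.sin θ ^ 2) := by
    unfold seg
    ring
  show 2 * ker (fun r => ((s ^ 2 : ℝ) : ℂ) * e r) l j (seg (((s ^ 2 : ℝ) : ℂ) * e l.castSucc)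
    (((s ^ 2 : ℝ) : ℂ) * e l.succ) (Real.sin θ ^ 2)) = (s : ℂ) ^ (2 * (j : ℤ) + 1 - n) *
      (2 * ker e l j (seg (e l.castSucc) (e l.succ) (Real.sin θ ^ 2)))
  rw [hseg]
  unfold Pool.Agent.Y118.HP.ker
  rw [Finset.prod_congr rfl fun i _ => fac_scale he hs l i h1.1 h1.2, Finset.prod_mul_distrib, prod_scale, mul_pow]
  have h2 : (s : ℂ) ^ (2 * (j : ℤ) + 1 - n) = ((s ^ 2 : ℝ) : ℂ) ^ j * (s : ℂ)⁻¹ ^ (n - 1) := by
    have h3 : ((s ^ 2 : ℝ) : ℂ) ^ j = (s : ℂ) ^ ((2 * j : ℕ) : ℤ) := by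
      rw [zpow_natCast, pow_mul]
      push_cast
      rfl
    have h4 : (s : ℂ)⁻¹ ^ (n - 1) = (s : ℂ) ^ (-((n - 1 : ℕ) : ℤ)) := by
      rw [zpow_neg, zpow_natCast, inv_pow]
    rw [h3, h4, ← zpow_add₀ hs0]
    congr 1
    have h5 : 1 ≤ n := by
      have := l.2
      omega
    push_cast [Nat.cast_sub h5]
    ring
  rw [h2]
  ring

/-- the direction -/
noncomputable def w0 : ℂ := (1 + I : ℂ) ^ (1 / 2 : ℂ)

theorem w0_sq : w0 ^ 2 = 1 + I := w_sq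

theorem w0_ne : w0 ≠ 0 := w_ne

variable {ι : Type}

/-- the weights of the coefficients -/
def wt (n : ι → ℕ) (q : Σ i, Fin (n i + 1)) : ℕ := n q.1 + 1 - q.2

/-- the branch points of the curve with coefficients `(s²)^(wt q) x q` -/
noncomputable def eI (n : ι → ℕ) (s : ℝ) (x : (Σ i, Fin (n i + 1)) → ℂ) (i : ι) : Fin (n i + 1) → ℂ :=
  fun r => (1 + I) * (((s ^ 2 : ℝ) : ℂ) * rt (1 + I) (pj x i) r)

theorem eI_ord {n : ι → ℕ} {s : ℝ} (hs : 0 < s) {x : (Σ i, Fin (n i + 1)) → ℂ} {i : ι}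
    (hx : pj x i ∈ Un (1 + I) (n i)) : (fun r => ((s ^ 2 : ℝ) : ℂ) * rt (1 + I) (pj x i) r) ∈ Ord (n i) := by
  intro r t hrt
  have h1 := rt_mem hx r t hrt
  have h2 : 0 < s ^ 2 := by positivity
  rw [Complex.re_ofReal_mul, Complex.re_ofReal_mul]
  exact mul_lt_mul_of_pos_left h1 h2

theorem eI_cp {n : ι → ℕ} {s : ℝ} (hs : 0 < s) {x : (Σ i, Fin (n i + 1)) → ℂ} {i : ι}
    (hx : pj x i ∈ Un (1 + I) (n i)) {a : Fin (n i + 1) → ℂ}
    (ha : ∀ m : Fin (n i + 1), a m = ((s ^ 2 : ℝ) : ℂ) ^ (n i + 1 - (m : ℕ)) * x ⟨i, m⟩) :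
    cp a = rp (eI n s x i) := by
  have h0 : ((s ^ 2 : ℝ) : ℂ) ≠ 0 := by
    have : s ^ 2 ≠ 0 := by positivity
    exact_mod_cast this
  have h1 : eI n s x i = fun r => ((s ^ 2 : ℝ) : ℂ) * ((1 + I) * rt (1 + I) (pj x i) r) := by
    funext r
    unfold eI
    ring
  rw [eq_cp (rp_monic (eI n s x i)) (rp_natDegree _)]
  congr 1
  funext m
  rw [h1, rp_scale_coeff h0 _ (by omega : (m : ℕ) ≤ n i + 1), ← rt_eq hx, cp_coeff, ha]
  rfl

theorem qm_eI {n : ι → ℕ} {s : ℝ} (hs : 0 < s) {x : (Σ i, Fin (n i + 1)) → ℂ} {i : ι}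
    (hx : pj x i ∈ Un (1 + I) (n i)) (r t : Fin (n i)) :
    (s : ℂ) ^ (2 * (r : ℤ) + 1 - (n i)) * qm (n i) (rp (eI n s x i)) r t * (s : ℂ) ^ (2 * (t : ℤ) + 1 - (n i)) =
      qm (n i) (cp (pj x i)) r t := by
  have hs0 : (s : ℂ) ≠ 0 := by exact_mod_cast hs.ne'
  have h1 : eI n s x i = fun r => ((s ^ 2 : ℝ) : ℂ) * ((1 + I) * rt (1 + I) (pj x i) r) := by
    funext r
    unfold eI
    ring
  have h2 : (s : ℂ) ^ 2 = ((s ^ 2 : ℝ) : ℂ) := by push_cast; rfl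
  rw [h1, rt_eq hx]
  exact qm_scale h2 hs0 _ r t

theorem perF_eI {n : ι → ℕ} {s : ℝ} (hs : 0 < s) {x : (Σ i, Fin (n i + 1)) → ℂ} {i : ι}
    (hx : pj x i ∈ Un (1 + I) (n i)) (l j : Fin (n i)) :
    perF (eI n s x i) l j = (s : ℂ) ^ (2 * (j : ℤ) + 1 - (n i)) * PE w0 (rt (1 + I) (pj x i)) l j := by
  have h1 : perF (eI n s x i) l j = _ := perF_eq (eI_ord hs hx) l j
  have h2 : perC (fun r => ((s ^ 2 : ℝ) : ℂ) * rt (1 + I) (pj x i) r) l (j : ℕ) = _ := perC_scale (rt_mem hx) hs l j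
  rw [h1, h2]
  unfold PE w0
  rw [Matrix.of_apply]
  ring

end Pool.Agent.N121.OH
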